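import Pool.Agent.H986R2.K4.PL
import Pool.Agent.H986R2.K4.HHb
import Pool.Agent.H986R2.K4.A1
import Pool.Agent.H24R2.JP.All

set_option autoImplicit false

/-!
# Bounds for `XX` at height `t`: sharp near the line, crude far away
-/

namespace Pool.Agent.Run7.h966.JC

open Complex Filter Topology MeasureTheory Set
open Pool.Agent.H24R2.JP (XX HH Om FF)
open Pool.Agent.H986R2.K4 (ZB S_HH S_PL)

theorem xsym (z : ℂ) : ‖XX (-((starRingEnd ℂ) z))‖ = ‖XX z‖ := by
  rw [Pool.Agent.H24R2.JP.B1h.XX_neg, Pool.Agent.H24R2.JP.B1h.XX_conj, RCLike.norm_conj]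

theorem exp_Om {t : ℝ} (ht : 0 < t) (a : ℝ) : Real.exp (Om t * a) = t ^ (a / 2) := by
  rw [Real.rpow_def_of_pos ht]
  congr 1
  unfold Om
  ring

/-- eventually a constant is below a power -/
theorem ev_const (C a : ℝ) (ha : 0 < a) : ∃ T0 : ℝ, 2 ≤ T0 ∧ ∀ t : ℝ, T0 ≤ t → C ≤ t ^ a := by
  have h := (tendsto_rpow_atTop ha).eventually_ge_atTop C
  obtain ⟨T, hT⟩ := eventually_atTop.1 h
  exact ⟨max 2 T, le_max_left _ _, fun t ht => hT t ((le_max_right _ _).trans ht)⟩

theorem ux (ε : ℝ) (hε : 0 < ε) (hε1 : ε ≤ 1) : ∃ T0 : ℝ, 2 ≤ T0 ∧ ∀ (t : ℝ) (u : ℂ), T0 ≤ t →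
    |u.re| ≤ 12 → |u.im| ≤ 12 →
    ‖XX (I * t + u)‖ ≤ t ^ (ε + max |u.re| (1 / 2) / 2) * ‖HH (I * t)‖ := by
  set e : ℝ := ε / 4 with he
  have he0 : 0 < e := by rw [he]; linarith
  obtain ⟨t1, ht1, hZ⟩ := Pool.Agent.H986R2.K4.a1 e he0
  obtain ⟨C', T3, hC', hT3, hPL⟩ := Pool.Agent.H986R2.K4.pl Pool.Agent.H986R2.K4.hh (1 / 2 + e) e 1 t1 12
    (by linarith) (by linarith) he0.le (by linarith) one_pos (by linarith) (by norm_num) (by
      intro t ht
      have := hZ (1 / 2 + ((1 / 2 + e : ℝ) : ℂ) + t * I) (by simp; linarith) (by simpa using ht)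
      simpa using this.2.2.2)
  obtain ⟨K, hK, hHH⟩ := Pool.Agent.H986R2.K4.hh
  obtain ⟨T4, hT4, hHH⟩ := hHH 24 (by norm_num)
  obtain ⟨T5, hT5, hc5⟩ := ev_const (max C' (Real.exp (K * 24))) (ε / 2) (by linarith)
  refine ⟨T3 + T4 + T5 + t1 + 20, by linarith, ?_⟩
  have main : ∀ (t : ℝ) (u : ℂ), T3 + T4 + T5 + t1 + 20 ≤ t → 0 ≤ u.re → u.re ≤ 12 → |u.im| ≤ 12 →
      ‖XX (I * t + u)‖ ≤ t ^ (ε + max |u.re| (1 / 2) / 2) * ‖HH (I * t)‖ := by
    intro t u ht hu0 hu1 hu2
    have ht0 : 0 < t := by linarith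
    have ht1' : 1 ≤ t := by linarith
    have hcc := hc5 t (by linarith)
    have hc1 : C' ≤ t ^ (ε / 2) := (le_max_left _ _).trans hcc
    have hc2 : Real.exp (K * 24) ≤ t ^ (ε / 2) := (le_max_right _ _).trans hcc
    have hH0 : 0 ≤ ‖HH (I * t)‖ := norm_nonneg _
    rw [abs_of_nonneg hu0]
    rcases le_total u.re (1 / 2 + e) with hc | hc
    · have h1 := hPL t u (by linarith) (by rw [abs_of_nonneg hu0]; exact hc) hu2
      refine h1.trans ?_
      rw [mul_comm (1 / 2 + e) (Om t), exp_Om ht0]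
      calc C' * t ^ e * (t ^ ((1 / 2 + e) / 2) * ‖HH (I * t)‖)
          ≤ t ^ (ε / 2) * t ^ e * (t ^ ((1 / 2 + e) / 2) * ‖HH (I * t)‖) := by gcongr
        _ = t ^ (ε / 2 + e + (1 / 2 + e) / 2) * ‖HH (I * t)‖ := by
            rw [Real.rpow_add ht0, Real.rpow_add ht0]; ring
        _ ≤ _ := by
            apply mul_le_mul_of_nonneg_right _ hH0
            apply Real.rpow_le_rpow_of_exponent_le ht1'
            have := le_max_right u.re (1 / 2 : ℝ)
            rw [he]
            linarith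
    · have him : (I * (t : ℂ) + u).im = t + u.im := by simp
      have hre : (1 / 2 + (I * (t : ℂ) + u)).re = 1 / 2 + u.re := by simp
      have him2 : (1 / 2 + (I * (t : ℂ) + u)).im = t + u.im := by simp
      have hu2' := abs_le.1 hu2
      have hval := Pool.Agent.H24R2.JP.zetaS.1 (I * t + u) (by rw [him]; linarith)
      obtain ⟨-, -, -, -, h5⟩ := hHH t u (by linarith) (by
        have := Complex.norm_le_abs_re_add_abs_im u
        rw [abs_of_nonneg hu0] at this
        linarith)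
      obtain ⟨-, -, -, h6⟩ := hZ (1 / 2 + (I * (t : ℂ) + u)) (by rw [hre]; linarith)
        (by rw [him2]; linarith)
      rw [him2] at h6
      rw [hval, norm_mul]
      have h7 : (t + u.im) ^ e ≤ t ^ (2 * e) := by
        calc (t + u.im) ^ e ≤ (t ^ (2 : ℝ)) ^ e := by
              apply Real.rpow_le_rpow (by linarith) _ he0.le
              rw [Real.rpow_two]
              nlinarith
          _ = t ^ (2 * e) := by rw [← Real.rpow_mul ht0.le]
      have h9 : 0 ≤ (t + u.im) ^ e := Real.rpow_nonneg (by linarith) _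
      have h8 : Real.exp (Om t * u.re + K * 24) = t ^ (u.re / 2) * Real.exp (K * 24) := by
        rw [Real.exp_add, exp_Om ht0]
      have h9 : 0 ≤ (t + u.im) ^ e := Real.rpow_nonneg (by linarith) _
      calc ‖HH (I * t + u)‖ * ‖riemannZeta (1 / 2 + (I * t + u))‖
          ≤ (Real.exp (Om t * u.re + K * 24) * ‖HH (I * t)‖) * (t + u.im) ^ e := by
            apply mul_le_mul h5 h6 (norm_nonneg _) (by positivity)
        _ ≤ (t ^ (u.re / 2) * t ^ (ε / 2) * ‖HH (I * t)‖) * t ^ (2 * e) := by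
            rw [h8]
            gcongr
        _ = t ^ (u.re / 2 + ε / 2 + 2 * e) * ‖HH (I * t)‖ := by
            rw [Real.rpow_add ht0, Real.rpow_add ht0]; ring
        _ ≤ _ := by
            apply mul_le_mul_of_nonneg_right _ hH0
            apply Real.rpow_le_rpow_of_exponent_le ht1'
            have := le_max_left u.re (1 / 2 : ℝ)
            rw [he]
            linarith
  intro t u ht hu1 hu2
  rcases le_total 0 u.re with h0 | h0
  · exact main t u ht h0 ((le_abs_self _).trans hu1) hu2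
  · have h1 := main t (-((starRingEnd ℂ) u)) ht (by simpa using h0)
      (by simp only [neg_re, conj_re]; exact (neg_le_abs _).trans hu1) (by simpa using hu2)
    have e1 : I * (t : ℂ) + -((starRingEnd ℂ) u) = -((starRingEnd ℂ) (I * t + u)) := by
      simp only [map_add, map_mul, conj_I, conj_ofReal]
      ring
    rw [e1, xsym] at h1
    simpa using h1

theorem hh_step (z : ℂ) (hz : 2 ≤ z.im) :
    ‖HH (z + 2)‖ ≤ 4 * (‖z‖ + 1) * ‖HH z‖ := by
  have hne : (1 / 2 + z : ℂ) ≠ 0 := by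
    intro h
    have := congrArg Complex.im h
    simp at this
    linarith
  have e1 : (1 / 2 + (z + 2) : ℂ) = (1 / 2 + z) + 2 := by ring
  have e2 : (4 * (z + 2) ^ 2 - 1 : ℂ) = (2 * z + 3) * (2 * z + 5) := by ring
  have e3 : (4 * z ^ 2 - 1 : ℂ) = (2 * z - 1) * (2 * z + 1) := by ring
  have i1 : 4 ≤ ‖2 * z - 1‖ := by
    have h1 := Complex.abs_im_le_norm (2 * z - 1)
    have h2 : (2 * z - 1 : ℂ).im = 2 * z.im := by simp
    rw [h2, abs_of_nonneg (by linarith)] at h1
    linarith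
  have i2 : 4 ≤ ‖2 * z + 1‖ := by
    have h1 := Complex.abs_im_le_norm (2 * z + 1)
    have h2 : (2 * z + 1 : ℂ).im = 2 * z.im := by simp
    rw [h2, abs_of_nonneg (by linarith)] at h1
    linarith
  have i3 : ‖2 * z + 3‖ ≤ 2 * ‖2 * z - 1‖ := by
    have h1 : ‖2 * z + 3‖ ≤ ‖2 * z - 1‖ + ‖(4 : ℂ)‖ := by
      have := norm_add_le (2 * z - 1) (4 : ℂ)
      have e : (2 * z - 1 + 4 : ℂ) = 2 * z + 3 := by ring
      rwa [e] at this
    have h2 : ‖(4 : ℂ)‖ = 4 := by simp
    linarith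
  have i4 : ‖2 * z + 5‖ ≤ 2 * ‖2 * z + 1‖ := by
    have h1 : ‖2 * z + 5‖ ≤ ‖2 * z + 1‖ + ‖(4 : ℂ)‖ := by
      have := norm_add_le (2 * z + 1) (4 : ℂ)
      have e : (2 * z + 1 + 4 : ℂ) = 2 * z + 5 := by ring
      rwa [e] at this
    have h2 : ‖(4 : ℂ)‖ = 4 := by simp
    linarith
  have i5 : ‖(1 / 2 + z : ℂ) / 2 / Real.pi‖ ≤ ‖z‖ + 1 := by
    rw [norm_div, norm_div, Complex.norm_real, Real.norm_of_nonneg Real.pi_pos.le]
    have h1 : ‖(1 / 2 + z : ℂ)‖ ≤ 1 / 2 + ‖z‖ := by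
      refine (norm_add_le _ _).trans ?_
      simp
    have h2 : ‖(2 : ℂ)‖ = 2 := by simp
    rw [h2, div_div, div_le_iff₀ (by positivity)]
    have := Real.pi_gt_three
    have := norm_nonneg z
    nlinarith
  have hg : 0 ≤ ‖Gammaℝ (1 / 2 + z)‖ := norm_nonneg _
  have i6 : ‖Gammaℝ (1 / 2 + z) * (1 / 2 + z) / 2 / Real.pi‖ ≤ ‖Gammaℝ (1 / 2 + z)‖ * (‖z‖ + 1) := by
    have e : Gammaℝ (1 / 2 + z) * (1 / 2 + z) / 2 / Real.pi =
        Gammaℝ (1 / 2 + z) * ((1 / 2 + z : ℂ) / 2 / Real.pi) := by ring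
    rw [e, norm_mul]
    gcongr
  have i7 : ‖2 * z + 3‖ * ‖2 * z + 5‖ ≤ 4 * (‖2 * z - 1‖ * ‖2 * z + 1‖) := by
    calc ‖2 * z + 3‖ * ‖2 * z + 5‖ ≤ (2 * ‖2 * z - 1‖) * (2 * ‖2 * z + 1‖) := by gcongr
      _ = _ := by ring
  have l1 : ‖HH (z + 2)‖ = ‖2 * z + 3‖ * ‖2 * z + 5‖ *
      ‖Gammaℝ (1 / 2 + z) * (1 / 2 + z) / 2 / Real.pi‖ := by
    unfold HH
    rw [e1, Complex.Gammaℝ_add_two hne, e2, norm_mul, norm_mul]
  have l2 : ‖HH z‖ = ‖2 * z - 1‖ * ‖2 * z + 1‖ * ‖Gammaℝ (1 / 2 + z)‖ := by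
    unfold HH
    rw [e3, norm_mul, norm_mul]
  rw [l1, l2]
  calc ‖2 * z + 3‖ * ‖2 * z + 5‖ * ‖Gammaℝ (1 / 2 + z) * (1 / 2 + z) / 2 / Real.pi‖
      ≤ (4 * (‖2 * z - 1‖ * ‖2 * z + 1‖)) * (‖Gammaℝ (1 / 2 + z)‖ * (‖z‖ + 1)) := by gcongr
    _ = _ := by ring

/-- far to the right -/
theorem hh_far (t : ℝ) (ht : 10 ≤ t) (y : ℝ) (hy2 : 2 ≤ y) (hyt : y ≤ 2 * t) (x0 : ℝ) (hx0 : 0 ≤ x0) (k : ℕ)
    (hk : x0 + 2 * k ≤ 2 * t) :
    ‖HH (I * y + ((x0 + 2 * k : ℝ) : ℂ))‖ ≤ Real.exp (2 * k * Real.log t) * (20 ^ k * ‖HH (I * y + x0)‖) := by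
  induction k with
  | zero => simp
  | succ k ih =>
    have hk' : x0 + 2 * k ≤ 2 * t := by push_cast at hk; linarith
    have h1 := hh_step (I * y + ((x0 + 2 * k : ℝ) : ℂ)) (by simp; linarith)
    have e1 : (I * y + ((x0 + 2 * k : ℝ) : ℂ)) + 2 = I * y + ((x0 + 2 * (k + 1 : ℕ) : ℝ) : ℂ) := by
      push_cast; ring
    rw [e1] at h1
    have hn : ‖(I * y + ((x0 + 2 * k : ℝ) : ℂ))‖ ≤ 4 * t := by
      have h2 := Complex.norm_le_abs_re_add_abs_im (I * y + ((x0 + 2 * k : ℝ) : ℂ))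
      have h3 : (I * (y : ℂ) + ((x0 + 2 * k : ℝ) : ℂ)).re = x0 + 2 * k := by simp
      have h4 : (I * (y : ℂ) + ((x0 + 2 * k : ℝ) : ℂ)).im = y := by simp
      rw [h3, h4, abs_of_nonneg (by positivity), abs_of_nonneg (by linarith)] at h2
      linarith
    have ht0 : 0 < t := by linarith
    have e2 : Real.exp (2 * ((k + 1 : ℕ) : ℝ) * Real.log t) = Real.exp (2 * k * Real.log t) * t ^ 2 := by
      have : 2 * ((k + 1 : ℕ) : ℝ) * Real.log t = 2 * k * Real.log t + 2 * Real.log t := by push_cast; ring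
      rw [this, Real.exp_add]
      congr 1
      have h5 : 2 * Real.log t = Real.log (t ^ 2) := by rw [Real.log_pow]; norm_num
      rw [h5, Real.exp_log (by positivity)]
    rw [e2]
    calc ‖HH (I * y + ((x0 + 2 * (k + 1 : ℕ) : ℝ) : ℂ))‖
        ≤ 4 * (‖(I * y + ((x0 + 2 * k : ℝ) : ℂ))‖ + 1) * ‖HH (I * y + ((x0 + 2 * k : ℝ) : ℂ))‖ := h1
      _ ≤ 4 * (4 * t + 1) * (Real.exp (2 * k * Real.log t) * (20 ^ k * ‖HH (I * y + x0)‖)) := by
          have hih := ih hk'
          exact mul_le_mul (by linarith) hih (norm_nonneg _) (by positivity)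
      _ ≤ (20 * t ^ 2) * (Real.exp (2 * k * Real.log t) * (20 ^ k * ‖HH (I * y + x0)‖)) := by
          apply mul_le_mul_of_nonneg_right _ (by positivity)
          nlinarith
      _ = _ := by rw [pow_succ]; ring

theorem xg : ∃ K T0 : ℝ, 1 ≤ K ∧ 2 ≤ T0 ∧ ∀ (t : ℝ) (z : ℂ), T0 ≤ t → |z.re| ≤ t → t / 2 ≤ z.im →
    z.im ≤ t + 30 →
    ‖XX z‖ ≤ Real.exp (K * ((1 + |z.re|) * Real.log t + |z.im - t|)) * ‖HH (I * t)‖ := by
  obtain ⟨T1, hT1, hux⟩ := ux 1 one_pos le_rfl
  obtain ⟨KV, hKV, hV⟩ := Pool.Agent.H986R2.K4.PLAux.vert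
  obtain ⟨KH, hKH, hHH⟩ := Pool.Agent.H986R2.K4.hh
  obtain ⟨T2, hT2, hHH⟩ := hHH 2 (by norm_num)
  obtain ⟨t1, ht1, hZ⟩ := Pool.Agent.H986R2.K4.a1 (1 / 2) (by norm_num)
  refine ⟨KV + 2 * KH + 20, 2 * (T1 + T2 + t1 + 1000), by linarith, by linarith, ?_⟩
  have main : ∀ (t : ℝ) (z : ℂ), 2 * (T1 + T2 + t1 + 1000) ≤ t → 0 ≤ z.re → |z.re| ≤ t → t / 2 ≤ z.im →
      z.im ≤ t + 30 → ‖XX z‖ ≤ Real.exp ((KV + 2 * KH + 20) * ((1 + |z.re|) * Real.log t + |z.im - t|)) *
        ‖HH (I * t)‖ := by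
    intro t z ht h0 h1 h2 h3
    rw [abs_of_nonneg h0] at h1 ⊢
    set x : ℝ := z.re with hx
    set y : ℝ := z.im with hy
    have hz : z = I * y + x := by
      rw [hx, hy]
      apply Complex.ext <;> simp
    have ht0 : 0 < t := by linarith
    have hlog1 : 1 ≤ Real.log t := by
      rw [Real.le_log_iff_exp_le ht0]
      have := Real.exp_one_lt_d9
      linarith
    have hlog0 : 0 < Real.log t := by linarith
    have hlog20 : (20 : ℝ) ≤ Real.exp (3 * Real.log t) := by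
      have h5 : 3 * Real.log t = Real.log (t ^ 3) := by rw [Real.log_pow]; norm_num
      rw [h5, Real.exp_log (by positivity)]
      nlinarith [sq_nonneg t]
    have hly : Real.log y ≤ 2 * Real.log t := by
      have : 2 * Real.log t = Real.log (t ^ 2) := by rw [Real.log_pow]; norm_num
      rw [this]
      apply Real.log_le_log (by linarith)
      nlinarith
    have hly0 : 0 ≤ Real.log y := Real.log_nonneg (by linarith)
    have hvert : ‖HH (I * y)‖ ≤ Real.exp (KV * |y - t|) * ‖HH (I * t)‖ := by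
      have := hV 0 y t (by simp) (by linarith) (by linarith)
      simpa using this
    have hH0 : 0 ≤ ‖HH (I * t)‖ := norm_nonneg _
    obtain ⟨P, hP⟩ : ∃ P : ℝ, P = (1 + x) * Real.log t := ⟨_, rfl⟩
    have hP1 : Real.log t ≤ P := by rw [hP]; nlinarith
    have hP2 : x * Real.log t ≤ P := by rw [hP]; nlinarith
    have hP3 : KH ≤ KH * P := by nlinarith
    have hP4 : 0 ≤ P := by linarith
    have hP5 : 0 ≤ KH * P := by linarith
    -- step a
    have hA : ‖XX z‖ ≤ Real.exp ((2 * KH + 20) * ((1 + x) * Real.log t)) * ‖HH (I * y)‖ := by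
      have hHy0 : 0 ≤ ‖HH (I * y)‖ := norm_nonneg _
      rcases le_total x 1 with hc | hc
      · have h4 := hux y (x : ℂ) (by linarith) (by
          rw [ofReal_re, abs_of_nonneg h0]; linarith) (by simp)
        rw [← hz, ofReal_re, abs_of_nonneg h0] at h4
        refine h4.trans ?_
        apply mul_le_mul_of_nonneg_right _ hHy0
        rw [Real.rpow_def_of_pos (by linarith)]
        apply Real.exp_le_exp.2
        have h5 : max x (1 / 2) ≤ 1 := max_le hc (by norm_num)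
        have h6 : (0 : ℝ) ≤ 1 + max x (1 / 2) / 2 := by positivity
        calc Real.log y * (1 + max x (1 / 2) / 2) ≤ (2 * Real.log t) * (1 + 1 / 2) := by
              apply mul_le_mul hly (by linarith) h6 (by positivity)
          _ ≤ (2 * KH + 20) * ((1 + x) * Real.log t) := by rw [← hP]; linarith
      · have hval := Pool.Agent.H24R2.JP.zetaS.1 z (by linarith)
        have him : (1 / 2 + z : ℂ).im = y := by simp [hy]
        obtain ⟨-, -, -, h6⟩ := hZ (1 / 2 + z) (by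
          have : (1 / 2 + z : ℂ).re = 1 / 2 + x := by simp [hx]
          rw [this]
          linarith) (by
          rw [him]; linarith)
        rw [him, Real.rpow_def_of_pos (by linarith)] at h6
        obtain ⟨k, hk⟩ : ∃ k : ℕ, k = ⌊x / 2⌋₊ := ⟨_, rfl⟩
        have hk1 : (k : ℝ) ≤ x / 2 := by rw [hk]; exact Nat.floor_le (by positivity)
        have hk2 : x / 2 < k + 1 := by rw [hk]; exact Nat.lt_floor_add_one _
        have hf := hh_far t (by linarith) y (by linarith) (by linarith) (x - 2 * k) (by linarith) k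
          (by linarith)
        have e1 : I * (y : ℂ) + ((x - 2 * k + 2 * k : ℝ) : ℂ) = z := by
          rw [hz]; push_cast; ring
        rw [e1] at hf
        obtain ⟨-, -, -, -, h7⟩ := hHH y (((x - 2 * k : ℝ)) : ℂ) (by linarith) (by
          rw [Complex.norm_real, Real.norm_of_nonneg (by linarith)]; linarith)
        rw [ofReal_re] at h7
        have hOm : Om y = Real.log y / 2 := rfl
        have h8 : Om y * (x - 2 * k) ≤ 2 * Real.log t := by
          rw [hOm]
          have : (0 : ℝ) ≤ x - 2 * k := by linarith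
          nlinarith
        have h20 : (20 : ℝ) ^ k ≤ Real.exp (3 * Real.log t * k) := by
          rw [mul_comm, Real.exp_nat_mul]
          gcongr
        have hkl : (k : ℝ) * Real.log t ≤ x / 2 * Real.log t := by gcongr
        rw [hval, norm_mul]
        obtain ⟨c, hc'⟩ : ∃ c : ℝ, c = Om y * (x - 2 * k) + KH * 2 := ⟨_, rfl⟩
        rw [← hc'] at h7
        calc ‖HH z‖ * ‖riemannZeta (1 / 2 + z)‖
            ≤ (Real.exp (2 * k * Real.log t) * (Real.exp (3 * Real.log t * k) *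
              (Real.exp c * ‖HH (I * y)‖))) *
              Real.exp (Real.log y * (1 / 2)) := by
              apply mul_le_mul _ h6 (norm_nonneg _) (by positivity)
              refine hf.trans ?_
              gcongr
          _ = Real.exp (2 * k * Real.log t + 3 * Real.log t * k + c +
              Real.log y * (1 / 2)) * ‖HH (I * y)‖ := by
              rw [Real.exp_add, Real.exp_add, Real.exp_add]; ring
          _ ≤ _ := by
              apply mul_le_mul_of_nonneg_right _ hHy0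
              apply Real.exp_le_exp.2
              rw [← hP, hc']
              linarith
    calc ‖XX z‖ ≤ Real.exp ((2 * KH + 20) * ((1 + x) * Real.log t)) * ‖HH (I * y)‖ := hA
      _ ≤ Real.exp ((2 * KH + 20) * ((1 + x) * Real.log t)) *
          (Real.exp (KV * |y - t|) * ‖HH (I * t)‖) := by gcongr
      _ = Real.exp ((2 * KH + 20) * ((1 + x) * Real.log t) + KV * |y - t|) * ‖HH (I * t)‖ := by
          rw [Real.exp_add]; ring
      _ ≤ _ := by
          apply mul_le_mul_of_nonneg_right _ hH0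
          apply Real.exp_le_exp.2
          have h5 : 0 ≤ (1 + x) * Real.log t := by positivity
          have h6 : 0 ≤ |y - t| := abs_nonneg _
          nlinarith
  intro t z ht h1 h2 h3
  rcases le_total 0 z.re with h0 | h0
  · exact main t z ht h0 h1 h2 h3
  · have h4 := main t (-((starRingEnd ℂ) z)) ht (by simpa using h0) (by simpa using h1) (by simpa using h2)
      (by simpa using h3)
    rw [xsym] at h4
    simpa using h4

end Pool.Agent.Run7.h966.JC
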