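import Pool.Agent.Run7.h966.Rep
import Pool.Agent.Run7.h966.Gro
import Pool.Agent.Run7.h336.GF

set_option autoImplicit false

/-!
# The function `FF` on the vertical line through `-t ^ 2`: sharp bounds for its derivatives
-/

namespace Pool.Agent.Run7.h966.JC

open Complex Filter Topology MeasureTheory Set
open Pool.Agent.H24R2.JP (XX HH Om FF gam)

/-- `FF` on the vertical line through `-t ^ 2`. -/
noncomputable def gt (t : ℝ) (u : ℂ) : ℂ := FF (-(t : ℂ) ^ 2 + 2 * I * t * u)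

theorem FF_diff : Differentiable ℂ FF := Pool.Agent.H24R2.JP.b1.1

theorem FF_iter (k : ℕ) : Differentiable ℂ (iteratedDeriv k FF) := by
  have h : ContDiff ℂ ⊤ FF := FF_diff.contDiff
  exact h.differentiable_iteratedDeriv k (by exact WithTop.coe_lt_top _)

theorem gt_diff (t : ℝ) : Differentiable ℂ (gt t) := by
  unfold gt
  exact FF_diff.comp (by fun_prop)

theorem gt_iter (t : ℝ) (k : ℕ) (v : ℂ) :
    iteratedDeriv k (gt t) v = (2 * I * t) ^ k * iteratedDeriv k FF (-(t : ℂ) ^ 2 + 2 * I * t * v) := by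
  have h1 : ContDiff ℂ k (fun z => FF (-(t : ℂ) ^ 2 + z)) := by
    have : Differentiable ℂ (fun z => FF (-(t : ℂ) ^ 2 + z)) := FF_diff.comp (by fun_prop)
    exact this.contDiff
  have h2 := iteratedDeriv_comp_const_mul h1 (2 * I * t : ℂ)
  have h3 : gt t = fun x => (fun z => FF (-(t : ℂ) ^ 2 + z)) ((2 * I * t) * x) := rfl
  rw [h3, h2]
  simp only
  rw [iteratedDeriv_comp_const_add]

/-- the change of variable -/
theorem sqw (t : ℝ) (v : ℂ) (hv : ‖v‖ ≤ 20) (ht : 100 ≤ t) :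
    ∃ w : ℂ, ‖w - v‖ ≤ 800 / t ∧ (I * t + w) ^ 2 = -(t : ℂ) ^ 2 + 2 * I * t * v := by
  have ht0 : 0 < t := by linarith
  have ht' : (t : ℂ) ≠ 0 := by exact_mod_cast ht0.ne'
  have hs : ‖(-(2 * I * (1 : ℝ) / t) * v : ℂ)‖ ≤ 1 / 2 := by
    rw [norm_mul, Run7.h336.JS.norm_coef ht0 one_pos]
    rw [div_mul_eq_mul_div, div_le_iff₀ ht0]
    linarith
  obtain ⟨n1, n2⟩ := Run7.h336.JS.sr_near hs
  have n3 := Run7.h336.JS.sr_sq hs
  set s := Run7.h336.JS.sr t 1 v with hsdef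
  refine ⟨I * t * (s - 1), ?_, ?_⟩
  · have e : I * t * (s - 1) - v = (I * t) * (s - 1 - (-(2 * I * (1 : ℝ) / t) * v) / 2) := by
      push_cast
      field_simp
      ring_nf
      rw [Complex.I_sq]
      ring
    rw [e, norm_mul]
    have e2 : ‖(I * t : ℂ)‖ = t := by
      rw [norm_mul, Complex.norm_I, Complex.norm_real, Real.norm_of_nonneg ht0.le, one_mul]
    have e3 : ‖(-(2 * I * (1 : ℝ) / t) * v : ℂ)‖ = 2 / t * ‖v‖ := by
      rw [norm_mul, Run7.h336.JS.norm_coef ht0 one_pos, mul_one]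
    rw [e2]
    calc t * ‖s - 1 - (-(2 * I * (1 : ℝ) / t) * v) / 2‖
        ≤ t * (‖(-(2 * I * (1 : ℝ) / t) * v : ℂ)‖ ^ 2 / 2) := by gcongr
      _ = 2 * ‖v‖ ^ 2 / t := by rw [e3]; field_simp
      _ ≤ 2 * 20 ^ 2 / t := by gcongr
      _ = 800 / t := by norm_num
  · have e : I * t + I * t * (s - 1) = I * t * s := by ring
    rw [e, mul_pow, n3, mul_pow, Complex.I_sq]
    push_cast
    field_simp
    ring

/-- the value of `gt` in terms of `XX` -/
theorem gt_val (t : ℝ) (v : ℂ) (hv : ‖v‖ ≤ 20) (ht : 100 ≤ t) :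
    ∃ w : ℂ, ‖w - v‖ ≤ 800 / t ∧ gt t v = XX (I * t + w) := by
  obtain ⟨w, h1, h2⟩ := sqw t v hv ht
  refine ⟨w, h1, ?_⟩
  unfold gt
  rw [← h2, Pool.Agent.H24R2.JP.b1.2.1]

/-- The sharp bound for `gt` on discs of radius `1/2`. -/
theorem gsup (ε : ℝ) (hε : 0 < ε) (hε1 : ε ≤ 1 / 8) : ∃ T0 : ℝ, 100 ≤ T0 ∧ ∀ (t : ℝ) (v v' : ℂ), T0 ≤ t →
    -ε ≤ v.re → v.re ≤ 21 / 2 → |v.im| ≤ 21 / 2 → ‖v' - v‖ ≤ 1 / 2 →
    ‖gt t v'‖ ≤ t ^ (v.re / 2 + 1 / 4 + 5 / 2 * ε) * ‖HH (I * t)‖ := by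
  obtain ⟨T1, hT1, hux⟩ := ux ε hε (by linarith)
  refine ⟨T1 + 800 / ε + 1600, by have : 0 < 800 / ε := by positivity
                                  linarith, ?_⟩
  intro t v v' ht h1 h2 h3 h4
  have hq : 0 < 800 / ε := by positivity
  have ht0 : 0 < t := by linarith
  have hv'1 : |v'.re - v.re| ≤ 1 / 2 := by
    have := Complex.abs_re_le_norm (v' - v)
    rw [Complex.sub_re] at this
    linarith
  have hv'2 : |v'.im - v.im| ≤ 1 / 2 := by
    have := Complex.abs_im_le_norm (v' - v)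
    rw [Complex.sub_im] at this
    linarith
  rw [abs_le] at hv'1 hv'2 h3
  have hn : ‖v'‖ ≤ 20 := by
    rw [Complex.norm_eq_sqrt_sq_add_sq]
    apply Real.sqrt_le_iff.2
    refine ⟨by norm_num, ?_⟩
    have a1 : v'.re ^ 2 ≤ 11 ^ 2 := by
      apply sq_le_sq'
      · linarith
      · linarith
    have a2 : v'.im ^ 2 ≤ 11 ^ 2 := by
      apply sq_le_sq'
      · linarith
      · linarith
    nlinarith
  obtain ⟨w, hw1, hw2⟩ := gt_val t v' hn (by linarith)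
  have h800 : 800 / t ≤ ε := by
    rw [div_le_iff₀ ht0]
    have : 800 / ε ≤ t := by linarith
    rw [div_le_iff₀ hε] at this
    linarith
  have h800' : 800 / t ≤ 1 / 2 := by linarith
  have hw3 : |w.re - v'.re| ≤ 800 / t := by
    have := Complex.abs_re_le_norm (w - v')
    rw [Complex.sub_re] at this
    linarith
  have hw4 : |w.im - v'.im| ≤ 800 / t := by
    have := Complex.abs_im_le_norm (w - v')
    rw [Complex.sub_im] at this
    linarith
  rw [abs_le] at hw3 hw4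
  have hb : |w.re| ≤ v.re + 1 / 2 + 3 * ε := by
    rw [abs_le]
    constructor <;> linarith
  have hmax : max |w.re| (1 / 2) ≤ v.re + 1 / 2 + 3 * ε := max_le hb (by linarith)
  have h5 := hux t w (by linarith) (by
    rw [abs_le]
    constructor <;> linarith) (by
    rw [abs_le]
    constructor <;> linarith)
  rw [hw2]
  refine h5.trans ?_
  apply mul_le_mul_of_nonneg_right _ (norm_nonneg _)
  apply Real.rpow_le_rpow_of_exponent_le (by linarith)
  linarith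

/-- `n! 2^n`, crude and sharp. -/
theorem nfac {t ε : ℝ} {n : ℕ} (ht : 2 ≤ t) (hn1 : 1 ≤ n) (hn2 : (n : ℝ) ≤ 1 / 2 * Om t) :
    (n.factorial : ℝ) * 2 ^ n ≤ Om t ^ n ∧
    ((1 / 2 - ε) * Om t ≤ n →
      (n.factorial : ℝ) * 2 ^ n ≤ (Real.exp 1 * n) * t ^ (-(1 / 4) + ε / 2) * Om t ^ n) := by
  have hOm : 0 < Om t := by
    unfold Om
    have := Real.log_pos (by linarith : (1 : ℝ) < t)
    linarith
  have h1 : (n : ℝ) ^ n * 2 ^ n ≤ Om t ^ n := by
    rw [← mul_pow]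
    gcongr
    linarith
  constructor
  · have h2 : (n.factorial : ℝ) ≤ (n : ℝ) ^ n := by exact_mod_cast n.factorial_le_pow
    calc (n.factorial : ℝ) * 2 ^ n ≤ (n : ℝ) ^ n * 2 ^ n := by gcongr
      _ ≤ _ := h1
  · intro h3
    have h4 := fact_sqrt n hn1
    have hs : Real.sqrt n ≤ n := by
      rw [Real.sqrt_le_left (Nat.cast_nonneg _)]
      have : (1 : ℝ) ≤ n := by exact_mod_cast hn1
      nlinarith
    have h5 : (n.factorial : ℝ) ≤ Real.exp 1 * n * (n : ℝ) ^ n * Real.exp (-n) := by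
      rw [Real.exp_neg, ← div_eq_mul_inv, le_div_iff₀ (Real.exp_pos _)]
      refine h4.trans ?_
      gcongr
    have h6 : Real.exp (-n) ≤ t ^ (-(1 / 4) + ε / 2) := by
      have h7 : t ^ (-(1 / 4) + ε / 2) = Real.exp (-((1 / 2 - ε) * Om t)) := by
        rw [Real.rpow_def_of_pos (by linarith)]
        congr 1
        unfold Om
        ring
      rw [h7]
      apply Real.exp_le_exp.2
      linarith
    have h0 : (0 : ℝ) ≤ n := Nat.cast_nonneg _
    calc (n.factorial : ℝ) * 2 ^ n ≤ (Real.exp 1 * n * (n : ℝ) ^ n * Real.exp (-n)) * 2 ^ n := by gcongr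
      _ = (Real.exp 1 * n) * Real.exp (-n) * ((n : ℝ) ^ n * 2 ^ n) := by ring
      _ ≤ (Real.exp 1 * n) * t ^ (-(1 / 4) + ε / 2) * Om t ^ n := by gcongr

/-- The sharp bound for the derivatives of `gt`. -/
theorem sharp (ε : ℝ) (hε : 0 < ε) (hε1 : ε ≤ 1 / 8) : ∃ T0 : ℝ, 100 ≤ T0 ∧ ∀ (t : ℝ) (n k : ℕ) (v : ℂ),
    T0 ≤ t → (1 / 2 - ε) * Om t ≤ n → (n : ℝ) ≤ 1 / 2 * Om t → k = n ∨ k = n + 1 →
    -ε ≤ v.re → v.re ≤ 21 / 2 → |v.im| ≤ 21 / 2 →
    ‖iteratedDeriv k (gt t) v‖ ≤ t ^ (v.re / 2 + 5 * ε) * (Om t ^ n * ‖HH (I * t)‖) := by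
  obtain ⟨T1, hT1, hg⟩ := gsup ε hε hε1
  have hO : ∃ T2 : ℝ, ∀ t : ℝ, T2 ≤ t → 4 * Real.exp 1 * (Om t) ^ 2 ≤ t ^ (2 * ε) ∧ 8 ≤ Om t := by
    have h1 := (isLittleO_log_rpow_atTop (show 0 < ε by linarith)).bound
      (show (0 : ℝ) < 1 / 4 by norm_num)
    have h2 := Real.tendsto_log_atTop.eventually_ge_atTop 16
    obtain ⟨T2, hT2⟩ := eventually_atTop.1 (h1.and (h2.and (eventually_ge_atTop (1 : ℝ))))
    refine ⟨T2, fun t ht => ?_⟩
    obtain ⟨h3, h4, h5⟩ := hT2 t ht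
    rw [Real.norm_eq_abs, Real.norm_eq_abs, abs_of_nonneg (Real.log_nonneg h5),
      abs_of_nonneg (Real.rpow_nonneg (by linarith) _)] at h3
    have h6 : Om t = Real.log t / 2 := rfl
    constructor
    · have h7 : t ^ (2 * ε) = (t ^ ε) ^ 2 := by
        rw [← Real.rpow_natCast, ← Real.rpow_mul (by linarith)]
        congr 1
        push_cast
        ring
      rw [h7, h6]
      have h8 : 4 * Real.log t ≤ t ^ ε := by linarith
      have h9 : 0 ≤ Real.log t := by linarith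
      have := Real.exp_one_lt_d9
      calc 4 * Real.exp 1 * (Real.log t / 2) ^ 2 ≤ 4 * 4 * (Real.log t / 2) ^ 2 := by
            gcongr
            linarith
        _ ≤ (4 * Real.log t) ^ 2 := by nlinarith
        _ ≤ _ := by gcongr
    · rw [h6]; linarith
  obtain ⟨T2, hO⟩ := hO
  refine ⟨max T1 T2, le_max_of_le_left hT1, ?_⟩
  intro t n k v ht hn1 hn2 hk hv1 hv2 hv3
  have ht1 : T1 ≤ t := (le_max_left _ _).trans ht
  have ht2 : T2 ≤ t := (le_max_right _ _).trans ht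
  have ht100 : 100 ≤ t := by linarith
  have ht0 : 0 < t := by linarith
  obtain ⟨hO1, hO2⟩ := hO t ht2
  have hn0 : 1 ≤ n := by
    have : (0 : ℝ) < n := by nlinarith
    exact_mod_cast this
  have hn0' : (1 : ℝ) ≤ n := by exact_mod_cast hn0
  obtain ⟨-, hf⟩ := nfac (ε := ε) (t := t) (n := n) (by linarith) hn0 hn2
  have hf := hf hn1
  set C : ℝ := t ^ (v.re / 2 + 1 / 4 + 5 / 2 * ε) * ‖HH (I * t)‖ with hC
  have hC0 : 0 ≤ C := by rw [hC]; positivity
  have h1 := Complex.norm_iteratedDeriv_le_of_forall_mem_sphere_norm_le (f := gt t) (c := v) (R := 1 / 2)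
    (C := C) k (by norm_num) (gt_diff t).diffContOnCl (by
      intro z hz
      refine hg t v z ht1 hv1 hv2 hv3 ?_
      rw [mem_sphere_iff_norm] at hz
      exact hz.le)
  have h2 : (k.factorial : ℝ) * 2 ^ k ≤ (2 * (n + 1)) * ((n.factorial : ℝ) * 2 ^ n) := by
    rcases hk with rfl | rfl
    · have : (0 : ℝ) ≤ (k.factorial : ℝ) * 2 ^ k := by positivity
      nlinarith
    · rw [Nat.factorial_succ, pow_succ]
      push_cast
      apply le_of_eq
      ring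
  have h3 : (2 * ((n : ℝ) + 1)) * (Real.exp 1 * n) ≤ t ^ (2 * ε) := by
    refine le_trans ?_ hO1
    have h4 : (n : ℝ) + 1 ≤ Om t := by linarith
    have h5 : (n : ℝ) ≤ Om t := by linarith
    calc (2 * ((n : ℝ) + 1)) * (Real.exp 1 * n) ≤ (2 * Om t) * (Real.exp 1 * Om t) := by gcongr
      _ ≤ 4 * Real.exp 1 * (Om t) ^ 2 := by
          have : 0 ≤ Real.exp 1 * Om t ^ 2 := by positivity
          nlinarith
  calc ‖iteratedDeriv k (gt t) v‖ ≤ (k.factorial : ℝ) * C / (1 / 2) ^ k := h1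
    _ = (k.factorial : ℝ) * 2 ^ k * C := by
        rw [one_div, inv_pow, div_inv_eq_mul]; ring
    _ ≤ ((2 * (n + 1)) * ((Real.exp 1 * n) * t ^ (-(1 / 4) + ε / 2) * Om t ^ n)) * C := by
        apply mul_le_mul_of_nonneg_right _ hC0
        refine h2.trans ?_
        gcongr
    _ = ((2 * ((n : ℝ) + 1)) * (Real.exp 1 * n)) * (t ^ (-(1 / 4) + ε / 2) *
          t ^ (v.re / 2 + 1 / 4 + 5 / 2 * ε)) * (Om t ^ n * ‖HH (I * t)‖) := by
        rw [hC]; ring
    _ ≤ t ^ (2 * ε) * (t ^ (-(1 / 4) + ε / 2) *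
          t ^ (v.re / 2 + 1 / 4 + 5 / 2 * ε)) * (Om t ^ n * ‖HH (I * t)‖) := by
        have hOm0 : 0 ≤ Om t := by linarith
        gcongr
    _ = t ^ (v.re / 2 + 5 * ε) * (Om t ^ n * ‖HH (I * t)‖) := by
        rw [← Real.rpow_add ht0, ← Real.rpow_add ht0]
        congr 2
        ring

end Pool.Agent.Run7.h966.JC
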