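import Pool.Agent.Run7.h966.Cl1

set_option autoImplicit false

/-!
# Jensen polynomials of large degree are close to the derivatives of `XX`
-/

namespace Pool.Agent.Run7.h966.JC

open Complex Filter Topology MeasureTheory Set
open Pool.Agent.H24R2.JP (XX HH Om FF gam)

theorem norm_box {u : ℂ} (h1 : |u.re| ≤ 10) (h2 : |u.im| ≤ 10) : ‖u‖ ≤ 15 := by
  rw [Complex.norm_eq_sqrt_sq_add_sq]
  apply Real.sqrt_le_iff.mpr
  refine ⟨by norm_num, ?_⟩
  have := abs_le.mp h1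
  have := abs_le.mp h2
  nlinarith [sq_abs u.re, sq_abs u.im, abs_nonneg u.re, abs_nonneg u.im]

theorem exp_sub_one (φ : ℝ) : ‖cexp (I * φ) - 1‖ ≤ |φ| := by
  have := Real.norm_exp_I_mul_ofReal_sub_one_le (x := φ)
  rwa [Real.norm_eq_abs] at this

/-- bound on rotated points -/
theorem med : ∃ K T0 : ℝ, 1 ≤ K ∧ 100 ≤ T0 ∧ ∀ (t φ : ℝ) (v : ℂ), T0 ≤ t → |φ| ≤ 1 → ‖v‖ ≤ 16 →
    ‖FF (cexp (I * φ) * (-(t : ℂ) ^ 2 + 2 * I * t * v))‖ ≤
      Real.exp (K * ((1 + t * |φ|) * Real.log t)) * ‖HH (I * t)‖ := by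
  obtain ⟨K, T1, hK, hT1, hx⟩ := xg
  refine ⟨60 * K, T1 + 1000, by linarith, by linarith, ?_⟩
  intro t φ v ht hφ hv
  have ht0 : 0 < t := by linarith
  obtain ⟨w, hw1, hw2⟩ := sqw t v (by linarith) (by linarith)
  set z : ℂ := cexp (I * ((φ / 2 : ℝ) : ℂ)) * (I * t + w) with hz
  have hz2 : z ^ 2 = cexp (I * φ) * (-(t : ℂ) ^ 2 + 2 * I * t * v) := by
    rw [hz, mul_pow, hw2, ← Complex.exp_nat_mul]
    congr 2
    push_cast
    ring
  rw [← hz2, Pool.Agent.H24R2.JP.b1.2.1]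
  have h8 : 800 / t ≤ 1 := by
    rw [div_le_one ht0]; linarith
  have hwn : ‖w‖ ≤ 17 := by
    have := norm_add_le (w - v) v
    rw [sub_add_cancel] at this
    linarith
  set a : ℝ := φ / 2 with ha
  have hza : z = cexp (a * I) * (I * t) + cexp (a * I) * w := by
    rw [hz, mul_comm I (a : ℂ)]; ring
  have hn : ‖cexp (a * I) * w‖ ≤ 17 := by
    rw [norm_mul, Complex.norm_exp_ofReal_mul_I, one_mul]
    exact hwn
  have hzre : z.re = -(t * Real.sin a) + (cexp (a * I) * w).re := by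
    rw [hza, Complex.add_re]
    congr 1
    rw [Complex.exp_mul_I]
    simp [Complex.cos_ofReal_re, Complex.sin_ofReal_re]
    ring
  have hzim : z.im = t * Real.cos a + (cexp (a * I) * w).im := by
    rw [hza, Complex.add_im]
    congr 1
    rw [Complex.exp_mul_I]
    simp [Complex.cos_ofReal_re, Complex.sin_ofReal_re]
    ring
  have hre := (Complex.abs_re_le_norm (cexp (a * I) * w)).trans hn
  have him := (Complex.abs_im_le_norm (cexp (a * I) * w)).trans hn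
  rw [abs_le] at him
  have hsin : |Real.sin a| ≤ |φ| / 2 := by
    refine (Real.abs_sin_le_abs).trans ?_
    rw [ha, abs_div]
    simp
  have hcos1 : Real.cos a ≤ 1 := Real.cos_le_one a
  have hcos2 : 1 - |φ| / 8 ≤ Real.cos a := by
    have h1 := Real.one_sub_sq_div_two_le_cos (x := a)
    have h2 : a ^ 2 = |φ| ^ 2 / 4 := by rw [ha, div_pow, sq_abs]; norm_num
    rw [h2] at h1
    have h3 : |φ| ^ 2 ≤ |φ| := by nlinarith [abs_nonneg φ]
    linarith
  have hφ0 := abs_nonneg φ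
  have hz1 : |z.re| ≤ t * |φ| / 2 + 17 := by
    rw [hzre]
    refine (abs_add_le _ _).trans ?_
    rw [abs_neg, abs_mul, abs_of_pos ht0]
    nlinarith
  have htφ : t * |φ| ≤ t := by nlinarith
  have hz2' : t - t * |φ| / 8 - 17 ≤ z.im := by
    rw [hzim]
    nlinarith
  have hz3 : z.im ≤ t + 17 := by
    rw [hzim]
    nlinarith
  have h := hx t z (by linarith) (by linarith) (by linarith) (by linarith)
  refine h.trans ?_
  apply mul_le_mul_of_nonneg_right _ (norm_nonneg _)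
  apply Real.exp_le_exp.2
  have hlog1 : 1 ≤ Real.log t := by
    rw [Real.le_log_iff_exp_le ht0]
    have := Real.exp_one_lt_d9
    linarith
  have hs0 : 0 ≤ t * |φ| := by positivity
  have h5 : |z.im - t| ≤ t * |φ| / 8 + 17 := by
    rw [abs_le]
    constructor <;> linarith
  have h6 : (1 + |z.re|) * Real.log t + |z.im - t| ≤ 60 * ((1 + t * |φ|) * Real.log t) := by
    have h7 : (1 + |z.re|) * Real.log t ≤ (1 + (t * |φ| / 2 + 17)) * Real.log t := by gcongr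
    have h8 : t * |φ| ≤ t * |φ| * Real.log t := by nlinarith
    nlinarith
  calc K * ((1 + |z.re|) * Real.log t + |z.im - t|) ≤ K * (60 * ((1 + t * |φ|) * Real.log t)) := by
        gcongr
    _ = _ := by ring

/-- crude bound on rotated points -/
theorem lar : ∃ K T0 : ℝ, 1 ≤ K ∧ 100 ≤ T0 ∧ ∀ (t φ : ℝ) (v : ℂ), T0 ≤ t → ‖v‖ ≤ 16 →
    ‖FF (cexp (I * φ) * (-(t : ℂ) ^ 2 + 2 * I * t * v))‖ ≤
      Real.exp (K * t ^ (3 / 2 : ℝ)) * ‖HH (I * t)‖ := by
  obtain ⟨K, hK⟩ := Pool.Agent.H24R2.JP.growT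
  obtain ⟨KV, hKV, hV⟩ := Pool.Agent.H986R2.K4.PLAux.vert
  obtain ⟨KH, hKH, hHH⟩ := Pool.Agent.H986R2.K4.hh
  obtain ⟨T2, hT2, hHH⟩ := hHH 1 (by norm_num)
  set y0 : ℝ := T2 + 400 with hy0
  have hne : HH (I * y0) ≠ 0 := by
    have := (hHH y0 0 (by linarith) (by simp)).2.1
    simpa using this
  set c : ℝ := ‖HH (I * y0)‖ with hc
  have hc0 : 0 < c := norm_pos_iff.2 hne
  refine ⟨|K| * 3 + KV + |Real.log c| + 1, y0 + 1000, ?_, by linarith, ?_⟩
  · have := abs_nonneg K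
    have := abs_nonneg (Real.log c)
    linarith
  intro t φ v ht hv
  have ht0 : 0 < t := by linarith
  have ht1 : 1 ≤ t := by linarith
  have h1 : ‖cexp (I * φ) * (-(t : ℂ) ^ 2 + 2 * I * t * v)‖ ≤ 2 * t ^ 2 - 1 := by
    rw [norm_mul, mul_comm I (φ : ℂ), Complex.norm_exp_ofReal_mul_I, one_mul]
    refine (norm_add_le _ _).trans ?_
    rw [norm_neg, norm_pow, norm_mul, norm_mul, norm_mul, Complex.norm_real,
      Real.norm_of_nonneg ht0.le, Complex.norm_I]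
    have e2 : ‖(2 : ℂ)‖ = 2 := by simp
    rw [e2]
    nlinarith
  have h2 := hK (cexp (I * φ) * (-(t : ℂ) ^ 2 + 2 * I * t * v))
  set x := cexp (I * φ) * (-(t : ℂ) ^ 2 + 2 * I * t * v) with hx
  have h3 : (1 + ‖x‖) ^ (3 / 4 : ℝ) ≤ 3 * t ^ (3 / 2 : ℝ) := by
    calc (1 + ‖x‖) ^ (3 / 4 : ℝ) ≤ (2 * t ^ (2 : ℝ)) ^ (3 / 4 : ℝ) := by
          apply Real.rpow_le_rpow (by positivity) _ (by norm_num)
          rw [Real.rpow_two]
          linarith
      _ = 2 ^ (3 / 4 : ℝ) * t ^ (3 / 2 : ℝ) := by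
          rw [Real.mul_rpow (by norm_num) (by positivity), ← Real.rpow_mul ht0.le]
          norm_num
      _ ≤ 3 * t ^ (3 / 2 : ℝ) := by
          apply mul_le_mul_of_nonneg_right _ (by positivity)
          calc (2 : ℝ) ^ (3 / 4 : ℝ) ≤ 2 ^ (1 : ℝ) :=
                Real.rpow_le_rpow_of_exponent_le (by norm_num) (by norm_num)
            _ ≤ 3 := by norm_num
  have h4 : c ≤ Real.exp (KV * |y0 - t|) * ‖HH (I * t)‖ := by
    have := hV 0 y0 t (by simp) (by linarith) (by linarith)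
    rw [hc]
    simpa using this
  have h5 : |y0 - t| ≤ t := by
    rw [abs_le]; constructor <;> linarith
  have h6 : t ≤ t ^ (3 / 2 : ℝ) := by
    calc t = t ^ (1 : ℝ) := (Real.rpow_one t).symm
      _ ≤ _ := Real.rpow_le_rpow_of_exponent_le ht1 (by norm_num)
  have hH0 : 0 ≤ ‖HH (I * t)‖ := norm_nonneg _
  have h7 : 1 ≤ Real.exp (KV * t ^ (3 / 2 : ℝ) + |Real.log c|) * ‖HH (I * t)‖ := by
    have h8 : c ≤ Real.exp (KV * t ^ (3 / 2 : ℝ)) * ‖HH (I * t)‖ := by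
      refine h4.trans ?_
      apply mul_le_mul_of_nonneg_right _ hH0
      apply Real.exp_le_exp.2
      have : |y0 - t| ≤ t ^ (3 / 2 : ℝ) := h5.trans h6
      gcongr
    have h9 : 1 / c ≤ Real.exp |Real.log c| := by
      have : 1 / c = Real.exp (-Real.log c) := by
        rw [Real.exp_neg, Real.exp_log hc0, one_div]
      rw [this]
      apply Real.exp_le_exp.2
      exact neg_le_abs _
    calc (1 : ℝ) = 1 / c * c := by field_simp
      _ ≤ Real.exp |Real.log c| * (Real.exp (KV * t ^ (3 / 2 : ℝ)) * ‖HH (I * t)‖) := by gcongr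
      _ = _ := by rw [Real.exp_add]; ring
  have h10 : K * (1 + ‖x‖) ^ (3 / 4 : ℝ) ≤ |K| * 3 * t ^ (3 / 2 : ℝ) := by
    calc K * (1 + ‖x‖) ^ (3 / 4 : ℝ) ≤ |K| * (1 + ‖x‖) ^ (3 / 4 : ℝ) := by
          apply mul_le_mul_of_nonneg_right (le_abs_self _) (by positivity)
      _ ≤ |K| * (3 * t ^ (3 / 2 : ℝ)) := by gcongr
      _ = _ := by ring
  calc ‖FF x‖ ≤ Real.exp (K * (1 + ‖x‖) ^ (3 / 4 : ℝ)) * 1 := by rw [mul_one]; exact h2
    _ ≤ Real.exp (|K| * 3 * t ^ (3 / 2 : ℝ)) *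
        (Real.exp (KV * t ^ (3 / 2 : ℝ) + |Real.log c|) * ‖HH (I * t)‖) := by gcongr
    _ = Real.exp (|K| * 3 * t ^ (3 / 2 : ℝ) + (KV * t ^ (3 / 2 : ℝ) + |Real.log c|)) *
        ‖HH (I * t)‖ := by rw [Real.exp_add (|K| * 3 * t ^ (3 / 2 : ℝ))]; ring
    _ ≤ _ := by
        apply mul_le_mul_of_nonneg_right _ hH0
        apply Real.exp_le_exp.2
        have h11 : 1 ≤ t ^ (3 / 2 : ℝ) := ht1.trans h6
        have h12 := abs_nonneg (Real.log c)
        nlinarith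

/-- Cauchy's estimate at rotated points -/
theorem cauchyFF (t φ M : ℝ) (n : ℕ) (u : ℂ)
    (h : ∀ v : ℂ, ‖v - u‖ ≤ 1 / 2 → ‖FF (cexp (I * φ) * (-(t : ℂ) ^ 2 + 2 * I * t * v))‖ ≤ M) :
    ‖(2 * I * t) ^ n * iteratedDeriv n FF (cexp (I * φ) * (-(t : ℂ) ^ 2 + 2 * I * t * u))‖ ≤
      (n.factorial : ℝ) * 2 ^ n * M := by
  set g : ℂ → ℂ := fun v => FF (cexp (I * φ) * (-(t : ℂ) ^ 2 + 2 * I * t * v)) with hg
  have hgd : Differentiable ℂ g := FF_diff.comp (by fun_prop)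
  have hit : iteratedDeriv n g u = (cexp (I * φ) * (2 * I * t)) ^ n *
      iteratedDeriv n FF (cexp (I * φ) * (-(t : ℂ) ^ 2 + 2 * I * t * u)) := by
    have h1 : ContDiff ℂ n (fun z => FF (cexp (I * φ) * (-(t : ℂ) ^ 2) + z)) := by
      have : Differentiable ℂ (fun z => FF (cexp (I * φ) * (-(t : ℂ) ^ 2) + z)) :=
        FF_diff.comp (by fun_prop)
      exact this.contDiff
    have h2 := iteratedDeriv_comp_const_mul h1 (cexp (I * φ) * (2 * I * t) : ℂ)
    have h3 : g = fun x => (fun z => FF (cexp (I * φ) * (-(t : ℂ) ^ 2) + z))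
        ((cexp (I * φ) * (2 * I * t)) * x) := by
      funext x
      simp only [hg]
      congr 1
      ring
    rw [h3, h2]
    simp only
    rw [iteratedDeriv_comp_const_add]
    congr 2
    ring
  have h1 := Complex.norm_iteratedDeriv_le_of_forall_mem_sphere_norm_le (f := g) (c := u) (R := 1 / 2)
    (C := M) n (by norm_num) hgd.diffContOnCl (by
      intro z hz
      refine h z ?_
      rw [mem_sphere_iff_norm] at hz
      exact hz.le)
  have e1 : ‖(2 * I * t) ^ n * iteratedDeriv n FF (cexp (I * φ) * (-(t : ℂ) ^ 2 + 2 * I * t * u))‖ =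
      ‖iteratedDeriv n g u‖ := by
    have e0 : ‖cexp (I * φ) * (2 * I * t)‖ = ‖(2 * I * t : ℂ)‖ := by
      rw [norm_mul, mul_comm I (φ : ℂ), Complex.norm_exp_ofReal_mul_I, one_mul]
    rw [hit, norm_mul, norm_mul, norm_pow, norm_pow, e0]
  rw [e1]
  refine h1.trans (le_of_eq ?_)
  rw [one_div, inv_pow, div_inv_eq_mul]
  ring

end Pool.Agent.Run7.h966.JC
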