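import Pool.Agent.Run7.h966.Cl2

set_option autoImplicit false

/-!
# Jensen polynomials of large degree are close to the derivatives of `XX`: the main estimate
-/

namespace Pool.Agent.Run7.h966.JC

open Complex Filter Topology MeasureTheory Set Polynomial
open Pool.Agent.H24R2.JP (XX HH Om FF gam jensen)

/-- `D^n gt` and `D^n XX`. -/
theorem dif (ε : ℝ) (hε : 0 < ε) (hε1 : ε ≤ 1 / 8) : ∃ T0 : ℝ, 100 ≤ T0 ∧ ∀ (t : ℝ) (n : ℕ) (u : ℂ),
    T0 ≤ t → (1 / 2 - ε) * Om t ≤ n → (n : ℝ) ≤ 1 / 2 * Om t → 0 ≤ u.re → u.re ≤ 10 → |u.im| ≤ 10 →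
    ‖iteratedDeriv n (gt t) u - iteratedDeriv n XX (I * t + u)‖ ≤
      t ^ (u.re / 2 - 1 + 4 * ε) * (Om t ^ n * ‖HH (I * t)‖) := by
  obtain ⟨T1, hT1, hux⟩ := ux ε hε (by linarith)
  have hO : ∃ T2 : ℝ, ∀ t : ℝ, T2 ≤ t → 800 / ε * (Real.exp 1 * (1 / 2 * Om t)) ≤ t ^ ε ∧ 8 ≤ Om t := by
    have h1 := (isLittleO_log_rpow_atTop hε).bound
      (show (0 : ℝ) < (800 / ε * (Real.exp 1 * (1 / 2)))⁻¹ by positivity)
    have h2 := Real.tendsto_log_atTop.eventually_ge_atTop 16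
    obtain ⟨T2, hT2⟩ := eventually_atTop.1 (h1.and (h2.and (eventually_ge_atTop (1 : ℝ))))
    refine ⟨T2, fun t ht => ?_⟩
    obtain ⟨h3, h4, h5⟩ := hT2 t ht
    rw [Real.norm_eq_abs, Real.norm_eq_abs, abs_of_nonneg (Real.log_nonneg h5),
      abs_of_nonneg (Real.rpow_nonneg (by linarith) _)] at h3
    have h6 : Om t = Real.log t / 2 := rfl
    constructor
    · have hc : 0 < 800 / ε * (Real.exp 1 * (1 / 2)) := by positivity
      have h7 : 800 / ε * (Real.exp 1 * (1 / 2)) * Real.log t ≤ t ^ ε := by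
        calc _ ≤ 800 / ε * (Real.exp 1 * (1 / 2)) * ((800 / ε * (Real.exp 1 * (1 / 2)))⁻¹ * t ^ ε) := by
              gcongr
          _ = t ^ ε := by rw [← mul_assoc, mul_inv_cancel₀ hc.ne', one_mul]
      rw [h6]
      have h8 : 0 ≤ Real.log t := by linarith
      calc 800 / ε * (Real.exp 1 * (1 / 2 * (Real.log t / 2)))
          = (800 / ε * (Real.exp 1 * (1 / 2)) * Real.log t) / 2 := by ring
        _ ≤ 800 / ε * (Real.exp 1 * (1 / 2)) * Real.log t := by
            apply half_le_self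
            positivity
        _ ≤ _ := h7
    · rw [h6]; linarith
  obtain ⟨T2, hO⟩ := hO
  refine ⟨max T1 (max T2 (100 + 800 / ε)), ?_, ?_⟩
  · refine le_trans ?_ ((le_max_right _ _).trans (le_max_right _ _))
    have : 0 < 800 / ε := by positivity
    linarith
  intro t n u ht hn1 hn2 hu1 hu2 hu3
  have ht1 : T1 ≤ t := (le_max_left _ _).trans ht
  have ht2 : T2 ≤ t := ((le_max_left _ _).trans (le_max_right _ _)).trans ht
  have ht3 : 100 + 800 / ε ≤ t := ((le_max_right _ _).trans (le_max_right _ _)).trans ht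
  have hq : 0 < 800 / ε := by positivity
  have ht100 : 100 ≤ t := by linarith
  have ht0 : 0 < t := by linarith
  have h800 : 800 / t ≤ ε := by
    rw [div_le_iff₀ ht0]
    have : 800 / ε ≤ t := by linarith
    rw [div_le_iff₀ hε] at this
    linarith
  obtain ⟨hO1, hO2⟩ := hO t ht2
  have hn0 : 1 ≤ n := by
    have : (0 : ℝ) < n := by nlinarith
    exact_mod_cast this
  obtain ⟨-, hf⟩ := nfac (ε := ε) (t := t) (n := n) (by linarith) hn0 hn2
  have hf := hf hn1
  have hH0 : 0 ≤ ‖HH (I * t)‖ := norm_nonneg _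
  have hXd : Differentiable ℂ (fun v : ℂ => XX (I * t + v)) :=
    Pool.Agent.H24R2.JP.B1h.XX_diff.comp (by fun_prop)
  set B : ℝ := t ^ (u.re / 2 + 1 / 4 + 2 * ε) * ‖HH (I * t)‖ with hB
  have hB0 : 0 ≤ B := by positivity
  have hb1 : ∀ v2 : ℂ, ‖v2 - u‖ ≤ 1 / 2 + 2 * ε → ‖XX (I * t + v2)‖ ≤ B := by
    intro v2 hv2
    have a1 : |v2.re - u.re| ≤ 1 / 2 + 2 * ε := by
      have := Complex.abs_re_le_norm (v2 - u)
      rw [Complex.sub_re] at this
      linarith
    have a2 : |v2.im - u.im| ≤ 1 / 2 + 2 * ε := by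
      have := Complex.abs_im_le_norm (v2 - u)
      rw [Complex.sub_im] at this
      linarith
    rw [abs_le] at a1 a2
    have hu3' := abs_le.1 hu3
    have a3 : |v2.re| ≤ u.re + 1 / 2 + 2 * ε := by
      rw [abs_le]; constructor <;> linarith
    have a4 : max |v2.re| (1 / 2) ≤ u.re + 1 / 2 + 2 * ε := max_le a3 (by linarith)
    refine (hux t v2 ht1 (a3.trans (by linarith)) ?_).trans ?_
    · rw [abs_le]; constructor <;> linarith
    · rw [hB]
      apply mul_le_mul_of_nonneg_right _ hH0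
      apply Real.rpow_le_rpow_of_exponent_le (by linarith)
      linarith
  have hb2 : ∀ v1 : ℂ, ‖v1 - u‖ ≤ 1 / 2 + ε → ‖deriv (fun v : ℂ => XX (I * t + v)) v1‖ ≤ B / ε := by
    intro v1 hv1
    apply Complex.norm_deriv_le_of_forall_mem_sphere_norm_le hε hXd.diffContOnCl
    intro z hz
    rw [mem_sphere_iff_norm] at hz
    apply hb1
    have := norm_add_le (z - v1) (v1 - u)
    rw [sub_add_sub_cancel] at this
    linarith
  have hb3 : ∀ v : ℂ, ‖v - u‖ ≤ 1 / 2 → ‖gt t v - XX (I * t + v)‖ ≤ B / ε * (800 / t) := by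
    intro v hv
    have hun := norm_box (u := u) (by rw [abs_of_nonneg hu1]; exact hu2) hu3
    have hvn : ‖v‖ ≤ 20 := by
      have := norm_add_le (v - u) u
      rw [sub_add_cancel] at this
      linarith
    obtain ⟨w, hw1, hw2⟩ := gt_val t v hvn ht100
    rw [hw2]
    have key := Convex.norm_image_sub_le_of_norm_deriv_le (f := fun v : ℂ => XX (I * t + v))
      (s := Metric.closedBall v (800 / t)) (x := v) (y := w) (C := B / ε)
      (fun z _ => hXd z) (fun z hz => hb2 z (by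
        rw [mem_closedBall_iff_norm] at hz
        have := norm_add_le (z - v) (v - u)
        rw [sub_add_sub_cancel] at this
        linarith)) (convex_closedBall _ _) (by
        rw [mem_closedBall_iff_norm, sub_self, norm_zero]; positivity)
      (by rw [mem_closedBall_iff_norm]; exact hw1)
    refine key.trans ?_
    gcongr
  set D : ℂ → ℂ := fun v => gt t v - XX (I * t + v) with hD
  have hDd : Differentiable ℂ D := (gt_diff t).sub hXd
  have hDit : iteratedDeriv n D u = iteratedDeriv n (gt t) u - iteratedDeriv n XX (I * t + u) := by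
    have c1 : ContDiffAt ℂ n (gt t) u := (gt_diff t).contDiff.contDiffAt
    have c2 : ContDiffAt ℂ n (fun v : ℂ => XX (I * t + v)) u := hXd.contDiff.contDiffAt
    have := iteratedDeriv_sub c1 c2
    have e : D = gt t - fun v : ℂ => XX (I * t + v) := rfl
    rw [e, this, iteratedDeriv_comp_const_add]
  rw [← hDit]
  have h1 := Complex.norm_iteratedDeriv_le_of_forall_mem_sphere_norm_le (f := D) (c := u) (R := 1 / 2)
    (C := B / ε * (800 / t)) n (by norm_num) hDd.diffContOnCl (by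
      intro z hz
      rw [mem_sphere_iff_norm] at hz
      exact hb3 z hz.le)
  have hOm0 : 0 ≤ Om t := by linarith
  have hn00 : (0 : ℝ) ≤ n := Nat.cast_nonneg n
  calc ‖iteratedDeriv n D u‖ ≤ (n.factorial : ℝ) * (B / ε * (800 / t)) / (1 / 2) ^ n := h1
    _ = (n.factorial : ℝ) * 2 ^ n * (B / ε * (800 / t)) := by
        rw [one_div, inv_pow, div_inv_eq_mul]; ring
    _ ≤ ((Real.exp 1 * (1 / 2 * Om t)) * t ^ (-(1 / 4) + ε / 2) * Om t ^ n) * (B / ε * (800 / t)) := by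
        apply mul_le_mul_of_nonneg_right _ (by positivity)
        refine hf.trans ?_
        gcongr
    _ = (800 / ε * (Real.exp 1 * (1 / 2 * Om t))) * (t ^ (-(1 / 4) + ε / 2) *
          t ^ (u.re / 2 + 1 / 4 + 2 * ε) * t ^ (-1 : ℝ)) * (Om t ^ n * ‖HH (I * t)‖) := by
        rw [hB, Real.rpow_neg_one]
        field_simp
    _ ≤ t ^ ε * (t ^ (-(1 / 4) + ε / 2) *
          t ^ (u.re / 2 + 1 / 4 + 2 * ε) * t ^ (-1 : ℝ)) * (Om t ^ n * ‖HH (I * t)‖) := by
        gcongr
    _ = t ^ (u.re / 2 - 1 + 7 / 2 * ε) * (Om t ^ n * ‖HH (I * t)‖) := by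
        rw [← Real.rpow_add ht0, ← Real.rpow_add ht0, ← Real.rpow_add ht0]
        congr 2
        ring
    _ ≤ _ := by
        apply mul_le_mul_of_nonneg_right _ (by positivity)
        apply Real.rpow_le_rpow_of_exponent_le (by linarith)
        linarith

/-- the rescaled Jensen polynomial -/
noncomputable def pJ (t : ℝ) (d n : ℕ) (u : ℂ) : ℂ :=
  (2 * I * t) ^ n * ∑ j ∈ Finset.range (d + 1), (d.choose j : ℂ) * ((gam (n + j) : ℝ) : ℂ) *
    ((-(t : ℂ) ^ 2 + 2 * I * t * u) / d) ^ j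

theorem pJ_aeval (t : ℝ) (d n : ℕ) (u : ℂ) :
    pJ t d n u = (2 * I * t) ^ n * aeval ((-(t : ℂ) ^ 2 + 2 * I * t * u) / d) (jensen d n) := by
  unfold pJ jensen
  rw [map_sum]
  congr 1
  refine Finset.sum_congr rfl fun j _ => ?_
  simp

theorem pJ_diff (t : ℝ) (d n : ℕ) : Differentiable ℂ (pJ t d n) := by
  unfold pJ
  fun_prop

theorem iter_add (n j : ℕ) : iteratedDeriv j (iteratedDeriv n FF) 0 = ((gam (n + j) : ℝ) : ℂ) := by
  rw [← Pool.Agent.H24R2.JP.b1.2.2.2 (n + j)]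
  simp only [iteratedDeriv_eq_iterate]
  rw [add_comm n j, Function.iterate_add_apply]

theorem pJ_rep (t : ℝ) (d n : ℕ) (hd : 1 ≤ d) (u : ℂ) :
    pJ t d n u = ∫ φ in (-Real.pi)..Real.pi, Wt d φ *
      ((2 * I * t) ^ n * iteratedDeriv n FF (cexp (I * φ) * (-(t : ℂ) ^ 2 + 2 * I * t * u))) := by
  have h := rep (iteratedDeriv n FF) (FF_iter n) d hd (-(t : ℂ) ^ 2 + 2 * I * t * u)
  unfold pJ
  simp_rw [iter_add] at h
  rw [h, ← intervalIntegral.integral_const_mul]
  apply intervalIntegral.integral_congr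
  intro φ _
  ring

theorem gauss1 (d : ℕ) (φ : ℝ) :
    Real.sqrt d * |φ| * Real.exp (-(d * φ ^ 2 / 5)) ≤ 3 * Real.exp (-(d * φ ^ 2 / 10)) := by
  obtain ⟨x, hx⟩ : ∃ x : ℝ, x = Real.sqrt d * |φ| := ⟨_, rfl⟩
  have hx2 : x ^ 2 = d * φ ^ 2 := by
    rw [hx, mul_pow, Real.sq_sqrt (Nat.cast_nonneg d), sq_abs]
  rw [← hx, ← hx2]
  have h1 : x ≤ 3 * Real.exp (x ^ 2 / 10) := by
    have := Real.add_one_le_exp (x ^ 2 / 10)
    nlinarith [sq_nonneg (x - 2)]
  have h2 : Real.exp (-(x ^ 2 / 5)) = Real.exp (-(x ^ 2 / 10)) * Real.exp (-(x ^ 2 / 10)) := by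
    rw [← Real.exp_add]; congr 1; ring
  rw [h2]
  calc x * (Real.exp (-(x ^ 2 / 10)) * Real.exp (-(x ^ 2 / 10)))
      ≤ 3 * Real.exp (x ^ 2 / 10) * (Real.exp (-(x ^ 2 / 10)) * Real.exp (-(x ^ 2 / 10))) := by gcongr
    _ = 3 * (Real.exp (x ^ 2 / 10) * Real.exp (-(x ^ 2 / 10))) * Real.exp (-(x ^ 2 / 10)) := by ring
    _ = 3 * Real.exp (-(x ^ 2 / 10)) := by rw [← Real.exp_add, add_neg_cancel, Real.exp_zero, mul_one]

theorem gauss2 (d : ℕ) (hd : 1 ≤ d) :
    ∫ φ in (-Real.pi)..Real.pi, Real.exp (-(d * φ ^ 2 / 10)) ≤ 6 / Real.sqrt d := by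
  have hd0 : (0 : ℝ) < d := by exact_mod_cast hd
  have hint : Integrable (fun φ : ℝ => Real.exp (-(d * φ ^ 2 / 10))) := by
    have := integrable_exp_neg_mul_sq (b := (d : ℝ) / 10) (by positivity)
    refine this.congr (Eventually.of_forall fun φ => ?_)
    simp only
    congr 1
    ring
  have h1 : ∫ φ in (-Real.pi)..Real.pi, Real.exp (-(d * φ ^ 2 / 10)) ≤
      ∫ φ : ℝ, Real.exp (-(d * φ ^ 2 / 10)) := by
    rw [intervalIntegral.integral_of_le (by linarith [Real.pi_pos])]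
    exact setIntegral_le_integral hint (Eventually.of_forall fun φ => (Real.exp_pos _).le)
  have h2 : ∫ φ : ℝ, Real.exp (-(d * φ ^ 2 / 10)) = Real.sqrt (Real.pi / (d / 10)) := by
    rw [← integral_gaussian]
    congr 1
    funext φ
    congr 1
    ring
  refine h1.trans ?_
  rw [h2]
  have h3 : Real.pi / (d / 10) = (10 * Real.pi) / d := by field_simp
  rw [h3, Real.sqrt_div (by positivity)]
  apply div_le_div_of_nonneg_right _ (Real.sqrt_nonneg _)
  rw [Real.sqrt_le_left (by norm_num)]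
  have := Real.pi_lt_d2
  linarith

end Pool.Agent.Run7.h966.JC
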