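import Pool.Agent.Run7.h966.Cl3

set_option autoImplicit false

/-!
# Jensen polynomials of large degree are close to the derivatives of `XX`: conclusion
-/

namespace Pool.Agent.Run7.h966.JC

open Complex Filter Topology MeasureTheory Set Polynomial
open Pool.Agent.H24R2.JP (XX HH Om FF gam jensen)

/-- the rotated derivative -/
noncomputable def rd (t : ℝ) (n : ℕ) (u : ℂ) (φ : ℝ) : ℂ :=
  (2 * I * t) ^ n * iteratedDeriv n FF (cexp (I * φ) * (-(t : ℂ) ^ 2 + 2 * I * t * u))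

theorem rd_zero (t : ℝ) (n : ℕ) (u : ℂ) : rd t n u 0 = iteratedDeriv n (gt t) u := by
  unfold rd
  rw [gt_iter]
  simp

theorem rd_cont (t : ℝ) (n : ℕ) (u : ℂ) : Continuous (rd t n u) := by
  unfold rd
  have h := (FF_iter n).continuous
  fun_prop

/-- small angles -/
theorem caseA (ε : ℝ) (hε : 0 < ε) (hε1 : ε ≤ 1 / 8) : ∃ T0 : ℝ, 100 ≤ T0 ∧
    ∀ (t : ℝ) (n : ℕ) (u : ℂ) (φ : ℝ), T0 ≤ t → (1 / 2 - ε) * Om t ≤ n → (n : ℝ) ≤ 1 / 2 * Om t →
    0 ≤ u.re → u.re ≤ 10 → |u.im| ≤ 10 → t * |φ| ≤ ε →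
    ‖rd t n u φ - rd t n u 0‖ ≤ t ^ (u.re / 2 + 6 * ε) * (Om t ^ n * ‖HH (I * t)‖) * (t * |φ|) := by
  obtain ⟨T1, hT1, hs⟩ := sharp ε hε hε1
  refine ⟨T1, hT1, ?_⟩
  intro t n u φ ht hn1 hn2 hu1 hu2 hu3 hφ
  have ht0 : 0 < t := by linarith
  have htc : (t : ℂ) ≠ 0 := by exact_mod_cast ht0.ne'
  have hun := norm_box (u := u) (by rw [abs_of_nonneg hu1]; exact hu2) hu3
  set v : ℂ := u + (cexp (I * φ) - 1) * (I * t / 2 + u) with hv
  have hrd : rd t n u φ = iteratedDeriv n (gt t) v := by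
    unfold rd
    rw [gt_iter]
    congr 2
    rw [hv]
    ring_nf
    rw [Complex.I_sq]
    ring
  have hvu : ‖v - u‖ ≤ t * |φ| := by
    rw [hv, add_sub_cancel_left, norm_mul]
    have h1 : ‖(I * t / 2 + u : ℂ)‖ ≤ t := by
      refine (norm_add_le _ _).trans ?_
      rw [norm_div, norm_mul, Complex.norm_I, Complex.norm_real, Real.norm_of_nonneg ht0.le]
      have e2 : ‖(2 : ℂ)‖ = 2 := by simp
      rw [e2]
      linarith
    calc ‖cexp (I * φ) - 1‖ * ‖(I * t / 2 + u : ℂ)‖ ≤ |φ| * t := by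
          gcongr
          exact exp_sub_one φ
      _ = _ := mul_comm _ _
  have hd : ∀ z, HasDerivAt (iteratedDeriv n (gt t)) (iteratedDeriv (n + 1) (gt t) z) z := by
    intro z
    have h1 : Differentiable ℂ (iteratedDeriv n (gt t)) := by
      have h : ContDiff ℂ ⊤ (gt t) := (gt_diff t).contDiff
      exact h.differentiable_iteratedDeriv n (by exact WithTop.coe_lt_top _)
    rw [iteratedDeriv_succ]
    exact (h1 z).hasDerivAt
  have hOm0 : 0 ≤ Om t := by
    unfold Om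
    have := Real.log_nonneg (show (1 : ℝ) ≤ t by linarith)
    linarith
  rw [hrd, rd_zero]
  have key := Convex.norm_image_sub_le_of_norm_deriv_le (f := iteratedDeriv n (gt t))
    (s := Metric.closedBall u ε) (x := u) (y := v)
    (C := t ^ (u.re / 2 + 6 * ε) * (Om t ^ n * ‖HH (I * t)‖))
    (fun z _ => (hd z).differentiableAt) (fun z hz => by
      rw [mem_closedBall_iff_norm] at hz
      have a1 : |z.re - u.re| ≤ ε := by
        have := Complex.abs_re_le_norm (z - u)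
        rw [Complex.sub_re] at this
        linarith
      have a2 : |z.im - u.im| ≤ ε := by
        have := Complex.abs_im_le_norm (z - u)
        rw [Complex.sub_im] at this
        linarith
      rw [abs_le] at a1 a2
      have hu3' := abs_le.1 hu3
      rw [(hd z).deriv]
      refine (hs t n (n + 1) z ht hn1 hn2 (Or.inr rfl) (by linarith) (by linarith) ?_).trans ?_
      · rw [abs_le]; constructor <;> linarith
      · apply mul_le_mul_of_nonneg_right _ (by positivity)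
        apply Real.rpow_le_rpow_of_exponent_le (by linarith)
        linarith) (convex_closedBall _ _) (by
      rw [mem_closedBall_iff_norm, sub_self, norm_zero]; exact hε.le)
    (by rw [mem_closedBall_iff_norm]; exact hvu.trans hφ)
  refine key.trans ?_
  gcongr

/-- large angles -/
theorem caseBC : ∃ K T0 : ℝ, 1 ≤ K ∧ 100 ≤ T0 ∧
    ∀ (t : ℝ) (n : ℕ) (u : ℂ) (φ : ℝ), T0 ≤ t → 1 ≤ n → (n : ℝ) ≤ 1 / 2 * Om t →
    0 ≤ u.re → u.re ≤ 10 → |u.im| ≤ 10 →
    (|φ| ≤ 1 → ‖rd t n u φ - rd t n u 0‖ ≤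
      2 * Real.exp (K * ((1 + t * |φ|) * Real.log t)) * (Om t ^ n * ‖HH (I * t)‖)) ∧
    ‖rd t n u φ - rd t n u 0‖ ≤ 2 * Real.exp (K * t ^ (3 / 2 : ℝ)) * (Om t ^ n * ‖HH (I * t)‖) := by
  obtain ⟨K1, T1, hK1, hT1, hm⟩ := med
  obtain ⟨K2, T2, hK2, hT2, hl⟩ := lar
  refine ⟨max K1 K2, max T1 T2, le_max_of_le_left hK1, le_max_of_le_left hT1, ?_⟩
  intro t n u φ ht hn0 hn2 hu1 hu2 hu3
  have ht1 : T1 ≤ t := (le_max_left _ _).trans ht
  have ht2 : T2 ≤ t := (le_max_right _ _).trans ht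
  have ht0 : 0 < t := by linarith
  have hun := norm_box (u := u) (by rw [abs_of_nonneg hu1]; exact hu2) hu3
  have hvn : ∀ v : ℂ, ‖v - u‖ ≤ 1 / 2 → ‖v‖ ≤ 16 := by
    intro v hv
    have := norm_add_le (v - u) u
    rw [sub_add_cancel] at this
    linarith
  obtain ⟨hf, -⟩ := nfac (ε := 0) (t := t) (n := n) (by linarith) hn0 hn2
  have hlog : 0 ≤ Real.log t := Real.log_nonneg (by linarith)
  have hH0 : 0 ≤ ‖HH (I * t)‖ := norm_nonneg _
  have hgen : ∀ (ψ E : ℝ), (∀ v : ℂ, ‖v‖ ≤ 16 →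
      ‖FF (cexp (I * ψ) * (-(t : ℂ) ^ 2 + 2 * I * t * v))‖ ≤ Real.exp E * ‖HH (I * t)‖) →
      ‖rd t n u ψ‖ ≤ Real.exp E * (Om t ^ n * ‖HH (I * t)‖) := by
    intro ψ E h
    have := cauchyFF t ψ (Real.exp E * ‖HH (I * t)‖) n u (fun v hv => h v (hvn v hv))
    unfold rd
    refine this.trans ?_
    calc (n.factorial : ℝ) * 2 ^ n * (Real.exp E * ‖HH (I * t)‖)
        ≤ Om t ^ n * (Real.exp E * ‖HH (I * t)‖) := by gcongr
      _ = _ := by ring
  have hOm0 : 0 ≤ Om t := by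
    unfold Om
    linarith
  have hM : 0 ≤ Om t ^ n * ‖HH (I * t)‖ := by positivity
  constructor
  · intro hφ
    have h1 := hgen φ (K1 * ((1 + t * |φ|) * Real.log t)) (fun v hv => hm t φ v ht1 hφ hv)
    have h2 := hgen 0 (K1 * ((1 + t * |(0 : ℝ)|) * Real.log t))
      (fun v hv => hm t 0 v ht1 (by simp) hv)
    have h3 : Real.exp (K1 * ((1 + t * |φ|) * Real.log t)) ≤
        Real.exp (max K1 K2 * ((1 + t * |φ|) * Real.log t)) := by
      apply Real.exp_le_exp.2
      apply mul_le_mul_of_nonneg_right (le_max_left _ _)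
      positivity
    have h4 : Real.exp (K1 * ((1 + t * |(0 : ℝ)|) * Real.log t)) ≤
        Real.exp (max K1 K2 * ((1 + t * |φ|) * Real.log t)) := by
      refine le_trans ?_ h3
      apply Real.exp_le_exp.2
      rw [abs_zero, mul_zero]
      have : 0 ≤ t * |φ| := by positivity
      gcongr
    calc ‖rd t n u φ - rd t n u 0‖ ≤ ‖rd t n u φ‖ + ‖rd t n u 0‖ := norm_sub_le _ _
      _ ≤ Real.exp (max K1 K2 * ((1 + t * |φ|) * Real.log t)) * (Om t ^ n * ‖HH (I * t)‖) +
          Real.exp (max K1 K2 * ((1 + t * |φ|) * Real.log t)) * (Om t ^ n * ‖HH (I * t)‖) :=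
          add_le_add (h1.trans (mul_le_mul_of_nonneg_right h3 hM))
            (h2.trans (mul_le_mul_of_nonneg_right h4 hM))
      _ = _ := by ring
  · have h1 := hgen φ (K2 * t ^ (3 / 2 : ℝ)) (fun v hv => hl t φ v ht2 hv)
    have h2 := hgen 0 (K2 * t ^ (3 / 2 : ℝ)) (fun v hv => hl t 0 v ht2 hv)
    have h3 : Real.exp (K2 * t ^ (3 / 2 : ℝ)) ≤ Real.exp (max K1 K2 * t ^ (3 / 2 : ℝ)) := by
      apply Real.exp_le_exp.2
      apply mul_le_mul_of_nonneg_right (le_max_right _ _)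
      positivity
    calc ‖rd t n u φ - rd t n u 0‖ ≤ ‖rd t n u φ‖ + ‖rd t n u 0‖ := norm_sub_le _ _
      _ ≤ Real.exp (max K1 K2 * t ^ (3 / 2 : ℝ)) * (Om t ^ n * ‖HH (I * t)‖) +
          Real.exp (max K1 K2 * t ^ (3 / 2 : ℝ)) * (Om t ^ n * ‖HH (I * t)‖) :=
          add_le_add (h1.trans (mul_le_mul_of_nonneg_right h3 hM))
            (h2.trans (mul_le_mul_of_nonneg_right h3 hM))
      _ = _ := by ring

/-- logarithms are below powers -/
theorem ev_log (A a : ℝ) (ha : 0 < a) : ∃ T0 : ℝ, 2 ≤ T0 ∧ ∀ t : ℝ, T0 ≤ t → A * Real.log t ≤ t ^ a := by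
  have h1 := (isLittleO_log_rpow_atTop ha).bound (show (0 : ℝ) < (|A| + 1)⁻¹ by positivity)
  obtain ⟨T2, hT2⟩ := eventually_atTop.1 (h1.and (eventually_ge_atTop (1 : ℝ)))
  refine ⟨max 2 T2, le_max_left _ _, fun t ht => ?_⟩
  obtain ⟨h3, h5⟩ := hT2 t ((le_max_right _ _).trans ht)
  have hl := Real.log_nonneg h5
  rw [Real.norm_eq_abs, Real.norm_eq_abs, abs_of_nonneg hl,
    abs_of_nonneg (Real.rpow_nonneg (by linarith) _)] at h3
  have hA : A ≤ |A| + 1 := by linarith [le_abs_self A]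
  have hp : 0 < |A| + 1 := by positivity
  calc A * Real.log t ≤ (|A| + 1) * Real.log t := by gcongr
    _ ≤ (|A| + 1) * ((|A| + 1)⁻¹ * t ^ a) := by gcongr
    _ = t ^ a := by rw [← mul_assoc, mul_inv_cancel₀ hp.ne', one_mul]

/-- The rescaled Jensen polynomial is close to the derivative of `XX`. -/
theorem cl (δ : ℝ) (hδ : 0 < δ) (hδ1 : δ ≤ 1) : ∃ T0 : ℝ, 100 ≤ T0 ∧
    ∀ (t : ℝ) (n d : ℕ) (u : ℂ), T0 ≤ t → (1 / 2 - δ / 40) * Om t ≤ n → (n : ℝ) ≤ 1 / 2 * Om t →
    t ^ (2 + δ) ≤ d → (d : ℝ) ≤ t ^ (4 : ℝ) → 0 ≤ u.re → u.re ≤ 10 → |u.im| ≤ 10 →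
    ‖pJ t d n u - iteratedDeriv n XX (I * t + u)‖ ≤
      t ^ (u.re / 2 - δ / 4) * (Om t ^ n * ‖HH (I * t)‖) := by
  set ε : ℝ := δ / 40 with hε
  have hε0 : 0 < ε := by positivity
  have hε1 : ε ≤ 1 / 8 := by rw [hε]; linarith
  obtain ⟨T1, hT1, hA⟩ := caseA ε hε0 hε1
  obtain ⟨K, T2, hK, hT2, hBC⟩ := caseBC
  obtain ⟨T3, hT3, hdif⟩ := dif ε hε0 hε1
  obtain ⟨T4, hT4, hL4⟩ := ev_log ((K * (1 / ε + 1) + 4 / ε) * (5 / ε)) δ hδ
  obtain ⟨T5, hT5, hL5⟩ := ev_const (5 * (K + 4)) (1 / 2) (by norm_num)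
  obtain ⟨T6, hT6, hL6⟩ := ev_const 26 (δ / 10) (by positivity)
  refine ⟨T1 + T2 + T3 + T4 + T5 + T6 + Real.exp 16, by have := Real.exp_pos 16; linarith, ?_⟩
  intro t n d u ht hn1 hn2 hd1 hd2 hu1 hu2 hu3
  have he16 := Real.exp_pos 16
  have ht100 : 100 ≤ t := by linarith
  have ht0 : 0 < t := by linarith
  have ht1 : 1 ≤ t := by linarith
  have hl16 : 16 ≤ Real.log t := by
    rw [Real.le_log_iff_exp_le ht0]
    linarith
  have hlog0 : 0 < Real.log t := by linarith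
  have hOm : Om t = Real.log t / 2 := rfl
  have hOm0 : 0 < Om t := by rw [hOm]; linarith
  have hn0 : 1 ≤ n := by
    have : (0 : ℝ) < n := by nlinarith
    exact_mod_cast this
  have hA := fun φ => hA t n u φ (by linarith) hn1 hn2 hu1 hu2 hu3
  have hBC := fun φ => hBC t n u φ (by linarith) hn0 hn2 hu1 hu2 hu3
  have hdif := hdif t n u (by linarith) hn1 hn2 hu1 hu2 hu3
  have hL4 := hL4 t (by linarith)
  have hL5 := hL5 t (by linarith)
  have hL6 := hL6 t (by linarith)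
  obtain ⟨M, hM⟩ : ∃ M : ℝ, M = Om t ^ n * ‖HH (I * t)‖ := ⟨_, rfl⟩
  rw [← hM] at hdif ⊢
  simp only [← hM] at hA hBC
  have hM0 : 0 ≤ M := by rw [hM]; positivity
  -- facts on d
  have hdpos : (0 : ℝ) < d := lt_of_lt_of_le (Real.rpow_pos_of_pos ht0 _) hd1
  have hd' : 1 ≤ d := by exact_mod_cast hdpos
  have hsd : Real.sqrt d ≤ t ^ 2 := by
    rw [Real.sqrt_le_left (by positivity)]
    refine hd2.trans (le_of_eq ?_)
    rw [← pow_mul]
    norm_num
  have hsd2 : t ^ (1 + δ / 2) ≤ Real.sqrt d := by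
    apply Real.le_sqrt_of_sq_le
    refine le_trans (le_of_eq ?_) hd1
    rw [← Real.rpow_natCast, ← Real.rpow_mul ht0.le]
    congr 1
    push_cast
    ring
  have hsd0 : 0 < Real.sqrt d := Real.sqrt_pos.2 hdpos
  -- pointwise
  have hpt : ∀ φ : ℝ, |φ| ≤ Real.pi → ‖Wt d φ * (rd t n u φ - rd t n u 0)‖ ≤
      3 * t ^ (1 + u.re / 2 + 6 * ε) * M * Real.exp (-(d * φ ^ 2 / 10)) + t ^ (-1 : ℝ) * M := by
    intro φ hφ
    have hW := wt_norm d hd' φ hφ
    rw [norm_mul]
    have hpow0 : 0 ≤ t ^ (-1 : ℝ) * M := by positivity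
    rcases le_or_gt (t * |φ|) ε with hc | hc
    · have h1 := hA φ hc
      have h2 := gauss1 d φ
      calc ‖Wt d φ‖ * ‖rd t n u φ - rd t n u 0‖
          ≤ (Real.sqrt d * Real.exp (-(d * φ ^ 2 / 5))) * (t ^ (u.re / 2 + 6 * ε) * M * (t * |φ|)) := by
            gcongr
        _ = (Real.sqrt d * |φ| * Real.exp (-(d * φ ^ 2 / 5))) * (t ^ (u.re / 2 + 6 * ε) * t * M) := by
            ring
        _ ≤ (3 * Real.exp (-(d * φ ^ 2 / 10))) * (t ^ (u.re / 2 + 6 * ε) * t * M) := by gcongr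
        _ = 3 * t ^ (1 + u.re / 2 + 6 * ε) * M * Real.exp (-(d * φ ^ 2 / 10)) := by
            have : t ^ (1 + u.re / 2 + 6 * ε) = t ^ (u.re / 2 + 6 * ε) * t := by
              rw [← Real.rpow_add_one ht0.ne']
              congr 1
              ring
            rw [this]
            ring
        _ ≤ _ := by linarith
    · have htiny : ∀ E : ℝ, E - d * φ ^ 2 / 5 ≤ -(4 * Real.log t) →
          ‖rd t n u φ - rd t n u 0‖ ≤ 2 * Real.exp E * M →
          ‖Wt d φ‖ * ‖rd t n u φ - rd t n u 0‖ ≤ t ^ (-1 : ℝ) * M := by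
        intro E hE h1
        have h2 : Real.exp (-(d * φ ^ 2 / 5)) * Real.exp E ≤ t ^ (-4 : ℝ) := by
          rw [← Real.exp_add, Real.rpow_def_of_pos ht0]
          apply Real.exp_le_exp.2
          linarith
        have h3 : (2 : ℝ) * t ^ 2 * t ^ (-4 : ℝ) ≤ t ^ (-1 : ℝ) := by
          have e1 : t ^ 2 * t ^ (-4 : ℝ) = t ^ (-1 : ℝ) * t ^ (-1 : ℝ) := by
            rw [← Real.rpow_natCast, ← Real.rpow_add ht0, ← Real.rpow_add ht0]
            norm_num
          have e2 : 2 * t ^ (-1 : ℝ) ≤ 1 := by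
            rw [Real.rpow_neg_one, ← div_eq_mul_inv, div_le_one ht0]
            linarith
          have e3 : 0 ≤ t ^ (-1 : ℝ) := by positivity
          calc (2 : ℝ) * t ^ 2 * t ^ (-4 : ℝ) = (2 * t ^ (-1 : ℝ)) * t ^ (-1 : ℝ) := by
                rw [mul_assoc, e1]; ring
            _ ≤ 1 * t ^ (-1 : ℝ) := by gcongr
            _ = _ := one_mul _
        calc ‖Wt d φ‖ * ‖rd t n u φ - rd t n u 0‖
            ≤ (Real.sqrt d * Real.exp (-(d * φ ^ 2 / 5))) * (2 * Real.exp E * M) := by gcongr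
          _ = 2 * Real.sqrt d * (Real.exp (-(d * φ ^ 2 / 5)) * Real.exp E) * M := by ring
          _ ≤ 2 * t ^ 2 * t ^ (-4 : ℝ) * M := by gcongr
          _ ≤ t ^ (-1 : ℝ) * M := by gcongr
      have hmain0 : 0 ≤ 3 * t ^ (1 + u.re / 2 + 6 * ε) * M * Real.exp (-(d * φ ^ 2 / 10)) := by
        positivity
      refine le_trans ?_ (le_add_of_nonneg_left hmain0)
      rcases le_or_gt |φ| 1 with hc2 | hc2
      · refine htiny _ ?_ ((hBC φ).1 hc2)
        obtain ⟨s, hs⟩ : ∃ s : ℝ, s = t * |φ| := ⟨_, rfl⟩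
        rw [← hs] at hc ⊢
        have h1 : t ^ δ * s ^ 2 ≤ d * φ ^ 2 := by
          have e1 : t ^ (2 + δ) = t ^ δ * t ^ 2 := by
            rw [add_comm, Real.rpow_add ht0]
            norm_num
          calc t ^ δ * s ^ 2 = t ^ (2 + δ) * φ ^ 2 := by
                rw [hs, mul_pow, sq_abs, e1]; ring
            _ ≤ d * φ ^ 2 := by gcongr
        have h2 : t ^ δ * (ε * s) ≤ t ^ δ * s ^ 2 := by
          have : ε * s ≤ s ^ 2 := by nlinarith
          gcongr
        have h3 : (K * (1 / ε + 1) + 4 / ε) * Real.log t ≤ ε * t ^ δ / 5 := by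
          have e1 : (K * (1 / ε + 1) + 4 / ε) * (5 / ε) * Real.log t =
              (K * (1 / ε + 1) + 4 / ε) * Real.log t * (5 / ε) := by ring
          rw [e1, ← le_div_iff₀ (by positivity)] at hL4
          refine hL4.trans (le_of_eq ?_)
          field_simp
        have h4 : 1 + s ≤ (1 / ε + 1) * s := by
          have : 1 ≤ 1 / ε * s := by
            rw [one_div, inv_mul_eq_div, le_div_iff₀ hε0]
            linarith
          linarith
        have h5 : K * ((1 + s) * Real.log t) ≤ (K * (1 / ε + 1) * Real.log t) * s := by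
          calc K * ((1 + s) * Real.log t) ≤ K * (((1 / ε + 1) * s) * Real.log t) := by gcongr
            _ = _ := by ring
        have h6 : 4 * Real.log t ≤ (4 / ε * Real.log t) * s := by
          have : 4 ≤ 4 / ε * s := by
            rw [div_mul_eq_mul_div, le_div_iff₀ hε0]
            linarith
          calc 4 * Real.log t ≤ (4 / ε * s) * Real.log t := by gcongr
            _ = _ := by ring
        have hs0 : 0 < s := by linarith
        have h7 : ((K * (1 / ε + 1) + 4 / ε) * Real.log t) * s ≤ (ε * t ^ δ / 5) * s := by gcongr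
        have h8 : (ε * t ^ δ / 5) * s = t ^ δ * (ε * s) / 5 := by ring
        have h9 : ((K * (1 / ε + 1) + 4 / ε) * Real.log t) * s =
            (K * (1 / ε + 1) * Real.log t) * s + (4 / ε * Real.log t) * s := by ring
        rw [h8, h9] at h7
        linarith
      · refine htiny _ ?_ (hBC φ).2
        have h1 : (t : ℝ) ^ 2 ≤ d * φ ^ 2 := by
          have e1 : (t : ℝ) ^ 2 ≤ d := by
            refine le_trans ?_ hd1
            rw [← Real.rpow_natCast]
            apply Real.rpow_le_rpow_of_exponent_le ht1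
            push_cast
            linarith
          have e2 : 1 ≤ φ ^ 2 := by
            rw [← sq_abs]
            nlinarith
          nlinarith
        have h2 : Real.log t ≤ t ^ (3 / 2 : ℝ) := by
          calc Real.log t ≤ t := (Real.log_le_sub_one_of_pos ht0).trans (by linarith)
            _ = t ^ (1 : ℝ) := (Real.rpow_one t).symm
            _ ≤ _ := Real.rpow_le_rpow_of_exponent_le ht1 (by norm_num)
        have h3 : t ^ (3 / 2 : ℝ) * t ^ (1 / 2 : ℝ) = t ^ 2 := by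
          rw [← Real.rpow_add ht0, ← Real.rpow_natCast]
          norm_num
        have h4 : 0 < t ^ (3 / 2 : ℝ) := by positivity
        have h5 : 5 * (K + 4) * t ^ (3 / 2 : ℝ) ≤ t ^ 2 := by
          rw [← h3, mul_comm]
          exact mul_le_mul_of_nonneg_left hL5 h4.le
        have h6 : 5 * (K + 4) * t ^ (3 / 2 : ℝ) = 5 * (K * t ^ (3 / 2 : ℝ)) + 20 * t ^ (3 / 2 : ℝ) := by
          ring
        linarith
  -- the integral
  have hrep : pJ t d n u - iteratedDeriv n (gt t) u =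
      ∫ φ in (-Real.pi)..Real.pi, Wt d φ * (rd t n u φ - rd t n u 0) := by
    have e1 : pJ t d n u = ∫ φ in (-Real.pi)..Real.pi, Wt d φ * rd t n u φ := pJ_rep t d n hd' u
    have e2 : iteratedDeriv n (gt t) u = ∫ φ in (-Real.pi)..Real.pi, Wt d φ * rd t n u 0 := by
      rw [intervalIntegral.integral_mul_const, wt_int d hd', one_mul, rd_zero]
    rw [e1, e2, ← intervalIntegral.integral_sub]
    · apply intervalIntegral.integral_congr
      intro φ _
      simp only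
      ring
    · exact ((wt_cont d).mul (rd_cont t n u)).intervalIntegrable _ _
    · exact ((wt_cont d).mul continuous_const).intervalIntegrable _ _
  have hint : ‖pJ t d n u - iteratedDeriv n (gt t) u‖ ≤
      3 * t ^ (1 + u.re / 2 + 6 * ε) * M * (6 / Real.sqrt d) + 7 * (t ^ (-1 : ℝ) * M) := by
    rw [hrep]
    have hcg : Continuous (fun φ : ℝ => Real.exp (-(d * φ ^ 2 / 10))) := by fun_prop
    have h1 := intervalIntegral.norm_integral_le_of_norm_le (μ := volume) (a := -Real.pi) (b := Real.pi)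
      (f := fun φ => Wt d φ * (rd t n u φ - rd t n u 0))
      (g := fun φ : ℝ => 3 * t ^ (1 + u.re / 2 + 6 * ε) * M * Real.exp (-(d * φ ^ 2 / 10)) +
        t ^ (-1 : ℝ) * M)
      (by linarith [Real.pi_pos]) (Eventually.of_forall fun φ hφ => hpt φ (abs_le.2 ⟨hφ.1.le, hφ.2⟩))
      (((continuous_const.mul hcg).add continuous_const).intervalIntegrable _ _)
    refine h1.trans ?_
    have h5 : ∫ φ in (-Real.pi)..Real.pi, (3 * t ^ (1 + u.re / 2 + 6 * ε) * M *
        Real.exp (-(d * φ ^ 2 / 10)) + t ^ (-1 : ℝ) * M) =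
        (∫ φ in (-Real.pi)..Real.pi, 3 * t ^ (1 + u.re / 2 + 6 * ε) * M *
          Real.exp (-(d * φ ^ 2 / 10))) + ∫ φ in (-Real.pi)..Real.pi, t ^ (-1 : ℝ) * M :=
      intervalIntegral.integral_add ((continuous_const.mul hcg).intervalIntegrable _ _)
        (continuous_const.intervalIntegrable _ _)
    rw [h5, intervalIntegral.integral_const_mul, intervalIntegral.integral_const, smul_eq_mul]
    have h2 := gauss2 d hd'
    have h3 : Real.pi - -Real.pi ≤ 7 := by
      have := Real.pi_lt_d2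
      linarith
    have h4 : 0 ≤ t ^ (-1 : ℝ) * M := by positivity
    gcongr
  -- the main term
  have hmt : 3 * t ^ (1 + u.re / 2 + 6 * ε) * M * (6 / Real.sqrt d) ≤
      18 * (t ^ (u.re / 2 - 7 / 20 * δ) * M) := by
    have h1 : 1 / Real.sqrt d ≤ t ^ (-(1 + δ / 2)) := by
      rw [Real.rpow_neg ht0.le, one_div]
      exact inv_anti₀ (by positivity) hsd2
    calc 3 * t ^ (1 + u.re / 2 + 6 * ε) * M * (6 / Real.sqrt d)
        = 18 * (t ^ (1 + u.re / 2 + 6 * ε) * (1 / Real.sqrt d) * M) := by ring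
      _ ≤ 18 * (t ^ (1 + u.re / 2 + 6 * ε) * t ^ (-(1 + δ / 2)) * M) := by gcongr
      _ = _ := by
          have h2 : t ^ (1 + u.re / 2 + 6 * ε) * t ^ (-(1 + δ / 2)) = t ^ (u.re / 2 - 7 / 20 * δ) := by
            rw [← Real.rpow_add ht0]
            congr 1
            rw [hε]
            ring
          rw [h2]
  have hr1 : t ^ (-1 : ℝ) ≤ t ^ (u.re / 2 - 7 / 20 * δ) :=
    Real.rpow_le_rpow_of_exponent_le ht1 (by linarith)
  have hr2 : t ^ (u.re / 2 - 1 + 4 * ε) ≤ t ^ (u.re / 2 - 7 / 20 * δ) :=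
    Real.rpow_le_rpow_of_exponent_le ht1 (by rw [hε]; linarith)
  have hfin : 26 * t ^ (u.re / 2 - 7 / 20 * δ) ≤ t ^ (u.re / 2 - δ / 4) := by
    calc 26 * t ^ (u.re / 2 - 7 / 20 * δ) ≤ t ^ (δ / 10) * t ^ (u.re / 2 - 7 / 20 * δ) := by gcongr
      _ = _ := by
          rw [← Real.rpow_add ht0]
          congr 1
          ring
  calc ‖pJ t d n u - iteratedDeriv n XX (I * t + u)‖
      = ‖(pJ t d n u - iteratedDeriv n (gt t) u) +
          (iteratedDeriv n (gt t) u - iteratedDeriv n XX (I * t + u))‖ := by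
        congr 1; ring
    _ ≤ (18 * (t ^ (u.re / 2 - 7 / 20 * δ) * M) + 7 * (t ^ (-1 : ℝ) * M)) +
        t ^ (u.re / 2 - 1 + 4 * ε) * M :=
        (norm_add_le _ _).trans (add_le_add (hint.trans (add_le_add hmt le_rfl)) hdif)
    _ ≤ (18 * (t ^ (u.re / 2 - 7 / 20 * δ) * M) + 7 * (t ^ (u.re / 2 - 7 / 20 * δ) * M)) +
        t ^ (u.re / 2 - 7 / 20 * δ) * M := by gcongr
    _ = 26 * t ^ (u.re / 2 - 7 / 20 * δ) * M := by ring
    _ ≤ _ := by gcongr

end Pool.Agent.Run7.h966.JC
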