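import Pool.Agent.Run7.h966.Cl4
import Pool.Agent.H986R2.K4.All

set_option autoImplicit false

/-!
# If the Jensen polynomial is hyperbolic, the derivative of `XX` is controlled off the line
-/

namespace Pool.Agent.Run7.h966.JC

open Complex Filter Topology MeasureTheory Set Polynomial
open Pool.Agent.H24R2.JP (XX HH Om FF gam jensen Hyperbolic)

/-- Control of `D^n XX` near height `t`. -/
def Ctl (η0 η t : ℝ) (n : ℕ) : Prop := ∀ u : ℂ, η0 ≤ u.re → u.re ≤ 1 → |u.im| ≤ 1 →
    iteratedDeriv n XX (I * t + u) ≠ 0 ∧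
    ‖logDeriv (iteratedDeriv n XX) (I * t + u) - (Om t : ℂ)‖ ≤ η * Om t ∧
    t ^ (-η) * (Om t ^ n * ‖HH (I * t + u)‖) ≤ ‖iteratedDeriv n XX (I * t + u)‖

theorem pJ_ne {t : ℝ} {d n : ℕ} (ht : 0 < t) (hd : 1 ≤ d) (hh : Hyperbolic (jensen d n)) (u : ℂ)
    (hu : u.re ≠ 0) : pJ t d n u ≠ 0 := by
  rw [pJ_aeval]
  have ht' : (t : ℂ) ≠ 0 := by exact_mod_cast ht.ne'
  have hd0 : (0 : ℝ) < d := by exact_mod_cast hd
  refine mul_ne_zero (pow_ne_zero _ (mul_ne_zero (mul_ne_zero two_ne_zero I_ne_zero) ht')) ?_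
  intro h0
  have h1 := hh _ h0
  have h2 : ((-(t : ℂ) ^ 2 + 2 * I * t * u) / (d : ℂ)).im = 2 * t * u.re / d := by
    have e1 : ((d : ℕ) : ℂ) = (((d : ℕ) : ℝ) : ℂ) := by simp
    rw [e1, Complex.div_ofReal_im]
    congr 1
    have e2 : (-(t : ℂ) ^ 2 + 2 * I * t * u) = ((-(t ^ 2) : ℝ) : ℂ) + ((2 * t : ℝ) : ℂ) * (I * u) := by
      push_cast; ring
    rw [e2, Complex.add_im, Complex.ofReal_im, Complex.im_ofReal_mul, zero_add]
    simp
  rw [h2] at h1
  have h3 : 2 * t * u.re = 0 := by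
    rcases div_eq_zero_iff.1 h1 with h | h
    · exact h
    · exact absurd h hd0.ne'
  have h4 : u.re = 0 := by
    rcases mul_eq_zero.1 h3 with h | h
    · exact absurd h (by positivity)
    · exact h
  exact hu h4

theorem grJ (δ : ℝ) (hδ : 0 < δ) (hδ1 : δ ≤ 1) (η0 η : ℝ) (hη0 : 0 < η0) (hη0' : η0 ≤ 1 / 4)
    (hη : 0 < η) : ∃ T0 : ℝ, 2 ≤ T0 ∧ ∀ (t : ℝ) (n d : ℕ), T0 ≤ t → (1 / 2 - δ / 40) * Om t ≤ n →
    (n : ℝ) ≤ 1 / 2 * Om t → t ^ (2 + δ) ≤ d → (d : ℝ) ≤ t ^ (4 : ℝ) → Hyperbolic (jensen d n) →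
    Ctl η0 η t n := by
  obtain ⟨T1, hT1, hcl⟩ := cl δ hδ hδ1
  obtain ⟨K, hK, hHH⟩ := Pool.Agent.H986R2.K4.hh
  obtain ⟨TH, hTH, hHH⟩ := hHH 15 (by norm_num)
  obtain ⟨KU, TU, hKU, hTU, hUB⟩ := Pool.Agent.H986R2.K4.ub (1 / 4) (1 / 2) (by norm_num) (by norm_num)
    (by norm_num)
  set η' : ℝ := min (η / 8) (δ / 8) with hη'
  have hη'0 : 0 < η' := by rw [hη']; exact lt_min (by positivity) (by positivity)
  have hη'1 : η' ≤ η / 8 := min_le_left _ _
  have hη'2 : η' ≤ δ / 8 := min_le_right _ _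
  obtain ⟨ε', hε', hS⟩ := Pool.Agent.H986R2.K4.sab (η0 / 2) η' (KU + 6 + 15 * K) (by linarith)
    (by linarith) hη'0 (by positivity)
  set ε : ℝ := min (ε' / 2) (δ / 8) with hε
  have hε0 : 0 < ε := by rw [hε]; exact lt_min (by positivity) (by positivity)
  have hε1 : ε ≤ ε' / 2 := min_le_left _ _
  have hε2 : ε ≤ δ / 8 := min_le_right _ _
  obtain ⟨TR, hTR, hRG⟩ := Pool.Agent.H986R2.K4.rg Pool.Agent.H986R2.K4.ll Pool.Agent.H986R2.K4.hh
    Pool.Agent.H986R2.K4.a1 (1 / 4) (1 / 2) ε (by norm_num) (by norm_num) (by norm_num) hε0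
  obtain ⟨T5, hT5, hc5⟩ := ev_const (2 * Real.exp (15 * K)) (δ / 16) (by positivity)
  obtain ⟨T6, hT6, hc6⟩ := ev_const 2 (ε' / 2) (by positivity)
  obtain ⟨T7, hT7, hc7⟩ := ev_const (4 / η0) (δ / 16) (by positivity)
  obtain ⟨T8, hT8, hc8⟩ := ev_const 2 (η / 2) (by positivity)
  refine ⟨T1 + TH + TU + TR + T5 + T6 + T7 + T8 + Real.exp (4 * (K + 1) / η + 1), ?_, ?_⟩
  · have := Real.exp_pos (4 * (K + 1) / η + 1)
    linarith
  intro t n d ht hn1 hn2 hd1 hd2 hhyp
  have hex := Real.exp_pos (4 * (K + 1) / η + 1)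
  have ht100 : 100 ≤ t := by linarith
  have ht0 : 0 < t := by linarith
  have ht1 : 1 ≤ t := by linarith
  have hlogt : 4 * (K + 1) / η + 1 ≤ Real.log t := by
    rw [Real.le_log_iff_exp_le ht0]
    linarith
  have hL1 : 1 ≤ Real.log t := by
    have : 0 ≤ 4 * (K + 1) / η := by positivity
    linarith
  have hOm : Om t = Real.log t / 2 := rfl
  have hOm0 : 0 < Om t := by rw [hOm]; linarith
  have hKO : K + 1 ≤ η / 2 * Om t := by
    have h1 : 4 * (K + 1) / η ≤ Real.log t := by linarith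
    rw [div_le_iff₀ hη] at h1
    rw [hOm]; linarith
  have hn1' : 1 / 4 * Om t ≤ n := by
    refine le_trans ?_ hn1
    apply mul_le_mul_of_nonneg_right _ hOm0.le
    linarith
  have hd0 : (0 : ℝ) < d := lt_of_lt_of_le (Real.rpow_pos_of_pos ht0 _) hd1
  have hd' : 1 ≤ d := by exact_mod_cast hd0
  have hcl := fun u => hcl t n d u (by linarith) hn1 hn2 hd1 hd2
  have hcO : ((Om t : ℂ) ^ n) ≠ 0 := by
    apply pow_ne_zero
    exact_mod_cast hOm0.ne'
  have hcn : ‖((Om t : ℂ) ^ n)‖ = Om t ^ n := by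
    rw [norm_pow, Complex.norm_real, Real.norm_of_nonneg hOm0.le]
  have hcpos : 0 < Om t ^ n := pow_pos hOm0 n
  set f : ℂ → ℂ := iteratedDeriv n XX with hf
  have hfd : Differentiable ℂ f := Pool.Agent.H986R2.K4.GRAux.diff_iter n
  set F : ℂ → ℂ := fun z => pJ t d n (z - I * t) with hF
  have hFd : Differentiable ℂ F := (pJ_diff t d n).comp (by fun_prop)
  have hFv : ∀ u : ℂ, F (I * t + u) = pJ t d n u := by
    intro u
    rw [hF]
    simp only
    congr 1
    ring
  have hF0 : ∀ u : ℂ, 0 < u.re → F (I * t + u) ≠ 0 := by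
    intro u hu
    rw [hFv]
    exact pJ_ne ht0 hd' hhyp u hu.ne'
  have hH0 : ∀ u : ℂ, |u.re| ≤ 10 → |u.im| ≤ 10 → DifferentiableAt ℂ HH (I * t + u) ∧
      HH (I * t + u) ≠ 0 ∧ ‖logDeriv HH (I * t + u) - (Om t : ℂ)‖ ≤ K ∧
      Real.exp (Om t * u.re - K * 15) * ‖HH (I * t)‖ ≤ ‖HH (I * t + u)‖ := by
    intro u hu hu2
    obtain ⟨a, b, c, d, _⟩ := hHH t u (by linarith) (Pool.Agent.H986R2.K4.GRAux.norm_le hu hu2)
    exact ⟨a, b, c, d⟩
  -- the main size
  have hsize : ∀ u : ℂ, 0 ≤ u.re → u.re ≤ 10 → |u.im| ≤ 10 →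
      t ^ (u.re / 2) * ‖HH (I * t)‖ ≤ Real.exp (15 * K) * ‖HH (I * t + u)‖ := by
    intro u hu0 hu1 hu2
    obtain ⟨-, -, -, h4⟩ := hH0 u (by rw [abs_of_nonneg hu0]; exact hu1) hu2
    rw [Real.exp_sub, exp_Om ht0, div_mul_eq_mul_div, div_le_iff₀ (Real.exp_pos _)] at h4
    rw [mul_comm (Real.exp _)]
    rw [mul_comm 15 K]
    exact h4
  have hdiff : ∀ u : ℂ, 0 ≤ u.re → u.re ≤ 10 → |u.im| ≤ 10 →
      ‖F (I * t + u) - f (I * t + u)‖ ≤ 1 / 2 * t ^ (-(3 / 16) * δ) * (Om t ^ n * ‖HH (I * t + u)‖) := by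
    intro u hu0 hu1 hu2
    have h1 := hcl u hu0 hu1 hu2
    rw [hFv]
    refine h1.trans ?_
    have h2 := hsize u hu0 hu1 hu2
    have h3 := hc5 t (by linarith)
    have h4 : Real.exp (15 * K) * t ^ (-(δ / 4)) ≤ 1 / 2 * t ^ (-(3 / 16) * δ) := by
      calc Real.exp (15 * K) * t ^ (-(δ / 4)) ≤ (1 / 2 * t ^ (δ / 16)) * t ^ (-(δ / 4)) := by
            apply mul_le_mul_of_nonneg_right _ (by positivity)
            linarith
        _ = 1 / 2 * t ^ (-(3 / 16) * δ) := by
            rw [mul_assoc, ← Real.rpow_add ht0]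
            congr 2
            ring
    calc t ^ (u.re / 2 - δ / 4) * (Om t ^ n * ‖HH (I * t)‖)
        = t ^ (-(δ / 4)) * (Om t ^ n * (t ^ (u.re / 2) * ‖HH (I * t)‖)) := by
          have : t ^ (u.re / 2 - δ / 4) = t ^ (-(δ / 4)) * t ^ (u.re / 2) := by
            rw [← Real.rpow_add ht0]; congr 1; ring
          rw [this]; ring
      _ ≤ t ^ (-(δ / 4)) * (Om t ^ n * (Real.exp (15 * K) * ‖HH (I * t + u)‖)) := by gcongr
      _ = (Real.exp (15 * K) * t ^ (-(δ / 4))) * (Om t ^ n * ‖HH (I * t + u)‖) := by ring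
      _ ≤ _ := by gcongr
  set g : ℂ → ℂ := fun v => F (I * t + v) / ((Om t : ℂ) ^ n * HH (I * t + v)) with hg
  have hgn : ∀ u : ℂ, ‖g u‖ = ‖F (I * t + u)‖ / (Om t ^ n * ‖HH (I * t + u)‖) := by
    intro u
    rw [hg]; simp only
    rw [norm_div, norm_mul, hcn]
  have hpw1 : t ^ (-(3 / 16) * δ) ≤ 1 := by
    rw [show -(3 / 16) * δ = -((3 / 16) * δ) by ring, Real.rpow_neg ht0.le]
    apply inv_le_one_of_one_le₀
    exact Real.one_le_rpow ht1 (by positivity)
  have key := hS (Real.log t) g hL1 ?_ ?_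
  · -- control of f
    have hreg : ∀ u : ℂ, η0 / 2 ≤ u.re → u.re ≤ 3 → |u.im| ≤ 3 →
        F (I * t + u) ≠ 0 ∧ ‖f (I * t + u) / F (I * t + u) - 1‖ ≤ t ^ (-(δ / 16)) := by
      intro u hu1 hu2 hu3
      obtain ⟨k1, k2, k3⟩ := key u hu1 hu2 hu3
      have hur : |u.re| ≤ 10 := by rw [abs_of_nonneg (by linarith)]; linarith
      have hui : |u.im| ≤ 10 := by linarith
      obtain ⟨a1, a2, a3, a4⟩ := hH0 u hur hui
      have hFu := hF0 u (by linarith)
      refine ⟨hFu, ?_⟩
      have hHp : 0 < ‖HH (I * t + u)‖ := norm_pos_iff.2 a2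
      rw [hgn, le_div_iff₀ (by positivity)] at k2
      have h1 : t ^ (-(δ / 8)) * (Om t ^ n * ‖HH (I * t + u)‖) ≤ ‖F (I * t + u)‖ := by
        refine le_trans ?_ k2
        apply mul_le_mul_of_nonneg_right _ (by positivity)
        rw [Real.rpow_def_of_pos ht0]
        apply Real.exp_le_exp.mpr
        nlinarith
      have h2 := hdiff u (by linarith) (by linarith) hui
      have e1 : f (I * t + u) / F (I * t + u) - 1 = -((F (I * t + u) - f (I * t + u)) / F (I * t + u)) := by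
        field_simp
        ring
      rw [e1, norm_neg, norm_div, div_le_iff₀ (norm_pos_iff.2 hFu)]
      have hM : 0 ≤ Om t ^ n * ‖HH (I * t + u)‖ := by positivity
      calc ‖F (I * t + u) - f (I * t + u)‖
          ≤ 1 / 2 * t ^ (-(3 / 16) * δ) * (Om t ^ n * ‖HH (I * t + u)‖) := h2
        _ ≤ 1 * t ^ (-(3 / 16) * δ) * (Om t ^ n * ‖HH (I * t + u)‖) := by
            gcongr
            norm_num
        _ = t ^ (-(δ / 16)) * (t ^ (-(δ / 8)) * (Om t ^ n * ‖HH (I * t + u)‖)) := by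
            have e5 : t ^ (-(3 / 16) * δ) = t ^ (-(δ / 16)) * t ^ (-(δ / 8)) := by
              rw [← Real.rpow_add ht0]
              congr 1
              ring
            rw [e5]
            ring
        _ ≤ t ^ (-(δ / 16)) * ‖F (I * t + u)‖ := by gcongr
    intro u hu1 hu2 hu3
    have hur : |u.re| ≤ 10 := by rw [abs_of_nonneg (by linarith)]; linarith
    have hui : |u.im| ≤ 10 := by linarith
    obtain ⟨a1, a2, a3, a4⟩ := hH0 u hur hui
    obtain ⟨k1, k2, k3⟩ := key u (by linarith) (by linarith) (by linarith)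
    obtain ⟨hFu, hq⟩ := hreg u (by linarith) (by linarith) (by linarith)
    have hHp : 0 < ‖HH (I * t + u)‖ := norm_pos_iff.2 a2
    have hτ : t ^ (-(δ / 16)) ≤ η0 / 4 := by
      have h1 := hc7 t (by linarith)
      rw [Real.rpow_neg ht0.le]
      calc (t ^ (δ / 16))⁻¹ ≤ (4 / η0)⁻¹ := inv_anti₀ (by positivity) h1
        _ = η0 / 4 := by rw [inv_div]
    have hτ2 : t ^ (-(δ / 16)) ≤ 1 / 2 := by linarith
    -- the quotient
    set h : ℂ → ℂ := fun v => f (I * t + v) / F (I * t + v) with hh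
    have hhu : 1 / 2 ≤ ‖h u‖ := by
      have h1 := norm_sub_norm_le (1 : ℂ) (1 - h u)
      rw [sub_sub_cancel, norm_one, norm_sub_rev] at h1
      have h2 : ‖h u - 1‖ ≤ 1 / 2 := hq.trans hτ2
      linarith
    have hhu0 : h u ≠ 0 := by
      intro h0
      rw [h0, norm_zero] at hhu
      linarith
    have hfu : f (I * t + u) ≠ 0 := by
      intro h0
      apply hhu0
      rw [hh]
      simp only
      rw [h0, zero_div]
    -- derivative of the quotient
    have hball : ∀ v ∈ Metric.closedBall u (η0 / 2), η0 / 2 ≤ v.re ∧ v.re ≤ 3 ∧ |v.im| ≤ 3 := by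
      intro v hv
      rw [mem_closedBall_iff_norm] at hv
      have b1 := (Complex.abs_re_le_norm (v - u)).trans hv
      have b2 := (Complex.abs_im_le_norm (v - u)).trans hv
      rw [Complex.sub_re, abs_le] at b1
      rw [Complex.sub_im, abs_le] at b2
      have hu3' := abs_le.1 hu3
      refine ⟨by linarith, by linarith, ?_⟩
      rw [abs_le]; constructor <;> linarith
    have hhd : ∀ v : ℂ, F (I * t + v) ≠ 0 → DifferentiableAt ℂ h v := by
      intro v hv
      have b1 : DifferentiableAt ℂ (fun v : ℂ => f (I * t + v)) v :=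
        (hfd.comp (differentiable_id.const_add _)).differentiableAt
      have b2 : DifferentiableAt ℂ (fun v : ℂ => F (I * t + v)) v :=
        (hFd.comp (differentiable_id.const_add _)).differentiableAt
      exact b1.div b2 hv
    have hdh : ‖deriv h u‖ ≤ 1 / 2 := by
      have e1 : deriv h u = deriv (fun v => h v - 1) u := by
        rw [deriv_sub_const]
      rw [e1]
      have h1 := Complex.norm_deriv_le_of_forall_mem_sphere_norm_le (f := fun v => h v - 1) (c := u)
        (R := η0 / 2) (C := t ^ (-(δ / 16))) (by linarith) (by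
          apply DifferentiableOn.diffContOnCl
          rw [closure_ball _ (by linarith : η0 / 2 ≠ 0)]
          intro v hv
          obtain ⟨c1, c2, c3⟩ := hball v hv
          exact ((hhd v (hreg v c1 c2 c3).1).sub_const 1).differentiableWithinAt) (by
          intro v hv
          obtain ⟨c1, c2, c3⟩ := hball v (Metric.sphere_subset_closedBall hv)
          exact (hreg v c1 c2 c3).2)
      refine h1.trans ?_
      rw [div_le_iff₀ (by linarith)]
      linarith
    have hlog1 : ‖logDeriv h u‖ ≤ 1 := by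
      rw [logDeriv_apply, norm_div, div_le_one (by linarith)]
      linarith
    have hlogf : logDeriv f (I * t + u) = logDeriv h u + logDeriv F (I * t + u) := by
      have e1 := Pool.Agent.H986R2.K4.GRAux.logDeriv_quot (F := f) (H := F) (p := I * t) (c := 1) (u := u)
        one_ne_zero hfd.differentiableAt hfu hFd.differentiableAt hFu
      have e2 : (fun v => f (I * t + v) / (1 * F (I * t + v))) = h := by
        funext v
        rw [one_mul]
      rw [e2] at e1
      rw [e1]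
      ring
    have hlogF : logDeriv F (I * t + u) = logDeriv g u + logDeriv HH (I * t + u) := by
      have e1 := Pool.Agent.H986R2.K4.GRAux.logDeriv_quot (p := I * t) (u := u) hcO
        hFd.differentiableAt hFu a1 a2
      rw [hg, e1]
      ring
    refine ⟨hfu, ?_, ?_⟩
    · rw [hlogf, hlogF]
      have e3 : logDeriv h u + (logDeriv g u + logDeriv HH (I * t + u)) - (Om t : ℂ) =
          logDeriv h u + logDeriv g u + (logDeriv HH (I * t + u) - (Om t : ℂ)) := by ring
      rw [e3]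
      calc _ ≤ ‖logDeriv h u + logDeriv g u‖ + ‖logDeriv HH (I * t + u) - (Om t : ℂ)‖ := norm_add_le _ _
        _ ≤ (‖logDeriv h u‖ + ‖logDeriv g u‖) + ‖logDeriv HH (I * t + u) - (Om t : ℂ)‖ := by
            gcongr
            exact norm_add_le _ _
        _ ≤ (1 + η' * Real.log t) + K := add_le_add (add_le_add hlog1 k1) a3
        _ ≤ η * Om t := by
            have h1 : η' * Real.log t ≤ η / 8 * Real.log t := by gcongr
            rw [hOm] at hKO ⊢
            linarith
    · have h1 : t ^ (-(η / 2)) * (Om t ^ n * ‖HH (I * t + u)‖) ≤ ‖F (I * t + u)‖ := by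
        rw [hgn, le_div_iff₀ (by positivity)] at k2
        refine le_trans ?_ k2
        apply mul_le_mul_of_nonneg_right _ (by positivity)
        rw [Real.rpow_def_of_pos ht0]
        apply Real.exp_le_exp.mpr
        nlinarith
      have h2 : ‖f (I * t + u)‖ = ‖h u‖ * ‖F (I * t + u)‖ := by
        rw [← norm_mul]
        congr 1
        rw [hh]
        field_simp
      have h3 : t ^ (-η) ≤ 1 / 2 * t ^ (-(η / 2)) := by
        have h4 := hc8 t (by linarith)
        have h5 : t ^ (-η) = t ^ (-(η / 2)) * t ^ (-(η / 2)) := by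
          rw [← Real.rpow_add ht0]; congr 1; ring
        rw [h5]
        apply mul_le_mul_of_nonneg_right _ (by positivity)
        rw [Real.rpow_neg ht0.le, one_div]
        exact inv_anti₀ (by norm_num) h4
      rw [h2]
      calc t ^ (-η) * (Om t ^ n * ‖HH (I * t + u)‖)
          ≤ (1 / 2 * t ^ (-(η / 2))) * (Om t ^ n * ‖HH (I * t + u)‖) := by gcongr
        _ = 1 / 2 * (t ^ (-(η / 2)) * (Om t ^ n * ‖HH (I * t + u)‖)) := by ring
        _ ≤ ‖h u‖ * ‖F (I * t + u)‖ := by gcongr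
  · intro u hu1 hu2 hu3
    have hur : |u.re| ≤ 10 := by rw [abs_of_nonneg (by linarith)]; linarith
    obtain ⟨a1, a2, a3, a4⟩ := hH0 u hur hu3
    have hFu := hF0 u hu1
    have hHp : 0 < ‖HH (I * t + u)‖ := norm_pos_iff.2 a2
    refine ⟨?_, ?_, ?_⟩
    · have hd : DifferentiableAt ℂ (fun v : ℂ => I * t + v) u := differentiableAt_id.const_add _
      have b1 : DifferentiableAt ℂ (fun v : ℂ => F (I * t + v)) u :=
        (hFd.comp (differentiable_id.const_add _)).differentiableAt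
      have b2 : DifferentiableAt ℂ (fun v : ℂ => HH (I * t + v)) u :=
        DifferentiableAt.comp u a1 hd
      exact b1.div (b2.const_mul _) (mul_ne_zero hcO a2)
    · exact div_ne_zero hFu (mul_ne_zero hcO a2)
    · rw [hgn, div_le_iff₀ (by positivity)]
      have b1 := hUB t n (by linarith) hn1' hn2 u hur hu3
      have b2 : Real.exp (-(K * 15)) * ‖HH (I * t)‖ ≤ ‖HH (I * t + u)‖ := by
        refine le_trans ?_ a4
        apply mul_le_mul_of_nonneg_right _ (norm_nonneg _)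
        apply Real.exp_le_exp.mpr
        nlinarith
      have b3 : ‖HH (I * t)‖ ≤ Real.exp (K * 15) * ‖HH (I * t + u)‖ := by
        have := mul_le_mul_of_nonneg_left b2 (Real.exp_pos (K * 15)).le
        rwa [← mul_assoc, ← Real.exp_add, add_neg_cancel, Real.exp_zero, one_mul] at this
      have b4 : t ^ KU = Real.exp (KU * Real.log t) := by
        rw [Real.rpow_def_of_pos ht0, mul_comm]
      have b5 : Real.exp (K * 15) ≤ Real.exp (15 * K * Real.log t) := by
        apply Real.exp_le_exp.mpr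
        nlinarith
      have hM : 0 ≤ Om t ^ n * ‖HH (I * t + u)‖ := by positivity
      have b6 : ‖f (I * t + u)‖ ≤ Real.exp ((KU + 15 * K) * Real.log t) * (Om t ^ n * ‖HH (I * t + u)‖) := by
        calc ‖f (I * t + u)‖ ≤ t ^ KU * (Om t ^ n * ‖HH (I * t)‖) := b1
          _ ≤ t ^ KU * (Om t ^ n * (Real.exp (K * 15) * ‖HH (I * t + u)‖)) := by gcongr
          _ ≤ t ^ KU * (Om t ^ n * (Real.exp (15 * K * Real.log t) * ‖HH (I * t + u)‖)) := by gcongr
          _ = Real.exp ((KU + 15 * K) * Real.log t) * (Om t ^ n * ‖HH (I * t + u)‖) := by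
            rw [b4, add_mul, Real.exp_add]; ring
      have b7 := hdiff u hu1.le (by linarith) hu3
      have b8 : ‖F (I * t + u)‖ ≤ ‖F (I * t + u) - f (I * t + u)‖ + ‖f (I * t + u)‖ := by
        have := norm_add_le (F (I * t + u) - f (I * t + u)) (f (I * t + u))
        rwa [sub_add_cancel] at this
      have b9 : (1 : ℝ) ≤ Real.exp ((KU + 15 * K) * Real.log t) := by
        apply Real.one_le_exp
        positivity
      have b10 : 2 * Real.exp ((KU + 15 * K) * Real.log t) ≤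
          Real.exp ((KU + 6 + 15 * K) * Real.log t) := by
        have e1 : (KU + 6 + 15 * K) * Real.log t = 6 * Real.log t + (KU + 15 * K) * Real.log t := by ring
        rw [e1, Real.exp_add]
        apply mul_le_mul_of_nonneg_right _ (Real.exp_pos _).le
        have : (2 : ℝ) ≤ Real.exp 1 := by
          have := Real.add_one_le_exp (1 : ℝ)
          linarith
        refine this.trans (Real.exp_le_exp.2 ?_)
        linarith
      calc ‖F (I * t + u)‖ ≤ 1 / 2 * t ^ (-(3 / 16) * δ) * (Om t ^ n * ‖HH (I * t + u)‖) +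
            Real.exp ((KU + 15 * K) * Real.log t) * (Om t ^ n * ‖HH (I * t + u)‖) :=
            b8.trans (add_le_add b7 b6)
        _ ≤ 1 * (Om t ^ n * ‖HH (I * t + u)‖) +
            Real.exp ((KU + 15 * K) * Real.log t) * (Om t ^ n * ‖HH (I * t + u)‖) := by
            gcongr
            linarith
        _ ≤ Real.exp ((KU + 15 * K) * Real.log t) * (Om t ^ n * ‖HH (I * t + u)‖) +
            Real.exp ((KU + 15 * K) * Real.log t) * (Om t ^ n * ‖HH (I * t + u)‖) := by gcongr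
        _ = 2 * Real.exp ((KU + 15 * K) * Real.log t) * (Om t ^ n * ‖HH (I * t + u)‖) := by ring
        _ ≤ _ := by gcongr
  · intro u hu1 hu2 hu3
    have hur : |u.re| ≤ 10 := by rw [abs_of_nonneg (by linarith)]; linarith
    obtain ⟨a1, a2, a3, a4⟩ := hH0 u hur hu3
    have hHp : 0 < ‖HH (I * t + u)‖ := norm_pos_iff.2 a2
    obtain ⟨c1, c2⟩ := hRG t n (by linarith) hn1' hn2 u hu1 hu2 hu3
    have b7 := hdiff u (by linarith) hu2 hu3
    rw [hgn, le_div_iff₀ (by positivity), div_le_iff₀ (by positivity)]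
    have hM : 0 ≤ Om t ^ n * ‖HH (I * t + u)‖ := by positivity
    have b8 : ‖F (I * t + u)‖ ≤ ‖F (I * t + u) - f (I * t + u)‖ + ‖f (I * t + u)‖ := by
      have := norm_add_le (F (I * t + u) - f (I * t + u)) (f (I * t + u))
      rwa [sub_add_cancel] at this
    have b9 : ‖f (I * t + u)‖ - ‖F (I * t + u) - f (I * t + u)‖ ≤ ‖F (I * t + u)‖ := by
      have := norm_sub_norm_le (f (I * t + u)) (f (I * t + u) - F (I * t + u))
      rw [sub_sub_cancel, norm_sub_rev (f _) (F _)] at this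
      linarith
    have h2 := hc6 t (by linarith)
    have p1 : t ^ (-(3 / 16) * δ) ≤ t ^ (-ε) :=
      Real.rpow_le_rpow_of_exponent_le ht1 (by linarith)
    have p2 : t ^ (-(ε' / 2)) ≤ 1 / 2 := by
      rw [Real.rpow_neg ht0.le, one_div]
      exact inv_anti₀ (by norm_num) h2
    have p3 : Real.exp (-(ε' * Real.log t)) = t ^ (-(ε' / 2)) * t ^ (-(ε' / 2)) := by
      rw [← Real.rpow_add ht0, Real.rpow_def_of_pos ht0]
      congr 1
      ring
    have p4 : Real.exp (ε' * Real.log t) = t ^ (ε' / 2) * t ^ (ε' / 2) := by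
      rw [← Real.rpow_add ht0, Real.rpow_def_of_pos ht0]
      congr 1
      ring
    have p5 : t ^ (-(ε' / 2)) ≤ t ^ (-ε) := Real.rpow_le_rpow_of_exponent_le ht1 (by linarith)
    have p6 : t ^ ε ≤ t ^ (ε' / 2) := Real.rpow_le_rpow_of_exponent_le ht1 (by linarith)
    have p7 : 1 ≤ t ^ (ε' / 2) := by linarith
    constructor
    · rw [p3]
      calc t ^ (-(ε' / 2)) * t ^ (-(ε' / 2)) * (Om t ^ n * ‖HH (I * t + u)‖)
          ≤ 1 / 2 * t ^ (-ε) * (Om t ^ n * ‖HH (I * t + u)‖) := by gcongr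
        _ = t ^ (-ε) * (Om t ^ n * ‖HH (I * t + u)‖) -
            1 / 2 * t ^ (-ε) * (Om t ^ n * ‖HH (I * t + u)‖) := by ring
        _ ≤ ‖f (I * t + u)‖ - ‖F (I * t + u) - f (I * t + u)‖ := by
            apply sub_le_sub c1
            refine b7.trans ?_
            gcongr
        _ ≤ _ := b9
    · rw [p4]
      calc ‖F (I * t + u)‖ ≤ 1 / 2 * t ^ (-(3 / 16) * δ) * (Om t ^ n * ‖HH (I * t + u)‖) +
            t ^ ε * (Om t ^ n * ‖HH (I * t + u)‖) := b8.trans (add_le_add b7 c2)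
        _ ≤ 1 / 2 * 1 * (Om t ^ n * ‖HH (I * t + u)‖) +
            t ^ (ε' / 2) * (Om t ^ n * ‖HH (I * t + u)‖) := by gcongr
        _ ≤ t ^ (ε' / 2) * (Om t ^ n * ‖HH (I * t + u)‖) +
            t ^ (ε' / 2) * (Om t ^ n * ‖HH (I * t + u)‖) := by
            gcongr
            linarith
        _ = 2 * t ^ (ε' / 2) * (Om t ^ n * ‖HH (I * t + u)‖) := by ring
        _ ≤ t ^ (ε' / 2) * t ^ (ε' / 2) * (Om t ^ n * ‖HH (I * t + u)‖) := by gcongr

end Pool.Agent.Run7.h966.JC
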