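import Mathlib

set_option autoImplicit false

/-!
# An integral representation of Jensen polynomials

`∑_{j ≤ d} binom(d,j) h^(j)(0) (x/d)^j = ∫ W_d(φ) h(e^{iφ} x) dφ`, where the weight `W_d` is concentrated at
`φ = 0` with width `d^(-1/2)`.
-/

namespace Pool.Agent.Run7.h966.JC

open Complex Filter Topology MeasureTheory Set

/-- the weight -/
noncomputable def Wt (d : ℕ) (φ : ℝ) : ℂ :=
  ((d.factorial : ℂ) / (2 * Real.pi * (d : ℂ) ^ d)) * (cexp (d * cexp (I * φ)) * cexp (-(I * d * φ)))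

theorem wt_cont (d : ℕ) : Continuous (Wt d) := by
  unfold Wt
  fun_prop

theorem leibniz (h : ℂ → ℂ) (hh : Differentiable ℂ h) (d : ℕ) (x : ℂ) :
    iteratedDeriv d (fun z => cexp z * h (x / d * z)) 0 =
      ∑ j ∈ Finset.range (d + 1), (d.choose j : ℂ) * iteratedDeriv j h 0 * (x / d) ^ j := by
  have h1 : ContDiff ℂ d (fun z : ℂ => h (x / d * z)) := by
    have : Differentiable ℂ (fun z : ℂ => h (x / d * z)) := hh.comp (by fun_prop)
    exact this.contDiff
  have h2 : (fun z => cexp z * h (x / d * z)) = (fun z : ℂ => h (x / d * z)) * cexp := by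
    funext z
    simp [mul_comm]
  rw [h2, iteratedDeriv_mul h1.contDiffAt Complex.contDiff_exp.contDiffAt]
  refine Finset.sum_congr rfl fun j hj => ?_
  have e1 : iteratedDeriv (d - j) cexp 0 = 1 := by
    rw [iteratedDeriv_eq_iterate, Complex.iter_deriv_exp]
    simp
  have e2 : iteratedDeriv j (fun z : ℂ => h (x / d * z)) 0 = (x / d) ^ j * iteratedDeriv j h 0 := by
    have hc : ContDiff ℂ j h := hh.contDiff
    have := iteratedDeriv_comp_const_mul hc (x / d)
    rw [this]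
    simp
  rw [e1, e2]
  ring

theorem rep (h : ℂ → ℂ) (hh : Differentiable ℂ h) (d : ℕ) (hd : 1 ≤ d) (x : ℂ) :
    ∑ j ∈ Finset.range (d + 1), (d.choose j : ℂ) * iteratedDeriv j h 0 * (x / d) ^ j =
      ∫ φ in (-Real.pi)..Real.pi, Wt d φ * h (cexp (I * φ) * x) := by
  have hd0 : (0 : ℝ) < d := by exact_mod_cast hd
  have hdc : (d : ℂ) ≠ 0 := by exact_mod_cast hd0.ne'
  set F : ℂ → ℂ := fun z => cexp z * h (x / d * z) with hF
  have hFd : Differentiable ℂ F := by
    have : Differentiable ℂ (fun z : ℂ => h (x / d * z)) := hh.comp (by fun_prop)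
    exact Complex.differentiable_exp.mul this
  have h1 := hFd.differentiableOn (s := Metric.closedBall 0 (d : ℝ)) |>.circleIntegral_one_div_sub_center_pow_smul
    hd0 d
  rw [← leibniz h hh d x]
  have hfac : ((d.factorial : ℕ) : ℂ) ≠ 0 := by exact_mod_cast Nat.factorial_ne_zero d
  have h2 : iteratedDeriv d F 0 = ((d.factorial : ℂ) / (2 * Real.pi * I)) *
      ∮ z in C(0, (d : ℝ)), (1 / (z - 0) ^ (d + 1)) • F z := by
    rw [h1, smul_eq_mul]
    field_simp
  rw [h2]
  -- the circle integral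
  have h3 : (∮ z in C(0, (d : ℝ)), (1 / (z - 0) ^ (d + 1)) • F z) =
      ∫ φ in (0 : ℝ)..(2 * Real.pi), (I * ((d : ℂ) ^ d)⁻¹) *
        (cexp (d * cexp (I * φ)) * cexp (-(I * d * φ)) * h (cexp (I * φ) * x)) := by
    unfold circleIntegral
    apply intervalIntegral.integral_congr
    intro φ _
    simp only [deriv_circleMap, smul_eq_mul, sub_zero, circleMap, zero_add, hF]
    have e1 : cexp (φ * I) = cexp (I * φ) := by rw [mul_comm]
    rw [e1]
    have e2 : x / d * ((d : ℝ) * cexp (I * φ)) = cexp (I * φ) * x := by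
      push_cast
      field_simp
    rw [e2]
    have e3 : (((d : ℝ) : ℂ) * cexp (I * φ)) ^ (d + 1) =
        ((d : ℝ) : ℂ) * cexp (I * φ) * ((d : ℂ) ^ d * cexp (I * d * φ)) := by
      rw [pow_succ, mul_pow, ← Complex.exp_nat_mul]
      push_cast
      ring_nf
    rw [e3]
    have e4 : cexp (-(I * d * φ)) = (cexp (I * d * φ))⁻¹ := Complex.exp_neg _
    rw [e4]
    have hne : cexp (I * φ) ≠ 0 := Complex.exp_ne_zero _
    have hne2 : cexp (I * d * φ) ≠ 0 := Complex.exp_ne_zero _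
    push_cast
    field_simp
  rw [h3, intervalIntegral.integral_const_mul]
  set G : ℝ → ℂ := fun φ => cexp (d * cexp (I * φ)) * cexp (-(I * d * φ)) * h (cexp (I * φ) * x) with hG
  have hper : Function.Periodic G (2 * Real.pi) := by
    intro φ
    simp only [hG]
    have e1 : cexp (I * ((φ + 2 * Real.pi : ℝ) : ℂ)) = cexp (I * φ) := by
      have : I * ((φ + 2 * Real.pi : ℝ) : ℂ) = I * φ + 2 * Real.pi * I := by push_cast; ring
      rw [this]
      exact Complex.exp_periodic _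
    have e2 : cexp (-(I * d * ((φ + 2 * Real.pi : ℝ) : ℂ))) = cexp (-(I * d * φ)) := by
      have : -(I * d * ((φ + 2 * Real.pi : ℝ) : ℂ)) = -(I * d * φ) + ((-d : ℤ) : ℂ) * (2 * Real.pi * I) := by
        push_cast; ring
      rw [this]
      exact Complex.exp_periodic.int_mul _ _
    rw [e1, e2]
  have h4 : ∫ φ in (0 : ℝ)..(2 * Real.pi), G φ = ∫ φ in (-Real.pi)..Real.pi, G φ := by
    have := hper.intervalIntegral_add_eq 0 (-Real.pi)
    rw [zero_add] at this
    rw [this]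
    congr 1
    ring
  rw [h4, ← intervalIntegral.integral_const_mul, ← intervalIntegral.integral_const_mul]
  apply intervalIntegral.integral_congr
  intro φ _
  simp only [hG, Wt]
  have hI : (I : ℂ) ≠ 0 := Complex.I_ne_zero
  have hpi : (Real.pi : ℂ) ≠ 0 := by exact_mod_cast Real.pi_ne_zero
  field_simp

theorem wt_int (d : ℕ) (hd : 1 ≤ d) : ∫ φ in (-Real.pi)..Real.pi, Wt d φ = 1 := by
  have h := rep (fun _ => 1) (differentiable_const _) d hd 0
  simp only [mul_one] at h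
  rw [← h, Finset.sum_range_succ']
  simp

theorem fact_sqrt (n : ℕ) (hn : 1 ≤ n) :
    (n.factorial : ℝ) * Real.exp n ≤ Real.exp 1 * Real.sqrt n * (n : ℝ) ^ n := by
  obtain ⟨k, rfl⟩ : ∃ k, n = k + 1 := ⟨n - 1, by omega⟩
  have h := Stirling.stirlingSeq'_antitone (Nat.zero_le k)
  simp only [Function.comp, Nat.succ_eq_add_one, zero_add, Stirling.stirlingSeq_one] at h
  unfold Stirling.stirlingSeq at h
  set x : ℝ := ((k + 1 : ℕ) : ℝ) with hx
  have hx1 : (1 : ℝ) ≤ x := by rw [hx]; exact_mod_cast hn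
  have hx0 : 0 < x := by linarith
  have hs2 : 0 < Real.sqrt 2 := by positivity
  have hsx : 0 < Real.sqrt x := Real.sqrt_pos.2 hx0
  have e1 : Real.sqrt (2 * x) = Real.sqrt 2 * Real.sqrt x := Real.sqrt_mul (by norm_num) x
  rw [e1, div_le_div_iff₀ (by positivity) hs2] at h
  have h2 : ((k + 1).factorial : ℝ) ≤ Real.exp 1 * (Real.sqrt x * (x / Real.exp 1) ^ (k + 1)) := by
    have : ((k + 1).factorial : ℝ) * Real.sqrt 2 ≤
        (Real.exp 1 * (Real.sqrt x * (x / Real.exp 1) ^ (k + 1))) * Real.sqrt 2 := by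
      calc ((k + 1).factorial : ℝ) * Real.sqrt 2
          ≤ Real.exp 1 * (Real.sqrt 2 * Real.sqrt x * (x / Real.exp 1) ^ (k + 1)) := h
        _ = _ := by ring
    exact le_of_mul_le_mul_right this hs2
  have h4 : (x / Real.exp 1) ^ (k + 1) * Real.exp x = x ^ (k + 1) := by
    have : Real.exp x = Real.exp 1 ^ (k + 1) := by
      rw [← Real.exp_nat_mul, mul_one]
    rw [this, ← mul_pow, div_mul_cancel₀ _ (Real.exp_pos 1).ne']
  calc ((k + 1).factorial : ℝ) * Real.exp x
      ≤ (Real.exp 1 * (Real.sqrt x * (x / Real.exp 1) ^ (k + 1))) * Real.exp x :=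
        mul_le_mul_of_nonneg_right h2 (Real.exp_pos _).le
    _ = Real.exp 1 * Real.sqrt x * ((x / Real.exp 1) ^ (k + 1) * Real.exp x) := by ring
    _ = Real.exp 1 * Real.sqrt x * x ^ (k + 1) := by rw [h4]

theorem wt_norm (d : ℕ) (hd : 1 ≤ d) (φ : ℝ) (hφ : |φ| ≤ Real.pi) :
    ‖Wt d φ‖ ≤ Real.sqrt d * Real.exp (-(d * φ ^ 2 / 5)) := by
  have hd0 : (0 : ℝ) < d := by exact_mod_cast hd
  have e1 : ‖cexp (-(I * d * φ))‖ = 1 := by
    have : -(I * d * φ) = ((-(d * φ) : ℝ) : ℂ) * I := by push_cast; ring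
    rw [this, Complex.norm_exp_ofReal_mul_I]
  have e2 : ‖cexp (d * cexp (I * φ))‖ = Real.exp (d * Real.cos φ) := by
    rw [Complex.norm_exp]
    congr 1
    rw [mul_comm I, Complex.exp_mul_I]
    simp [Complex.cos_ofReal_re]
  have e3 : ‖((d.factorial : ℂ) / (2 * Real.pi * (d : ℂ) ^ d))‖ =
      (d.factorial : ℝ) / (2 * Real.pi * (d : ℝ) ^ d) := by
    rw [norm_div, norm_mul, norm_mul, norm_pow]
    simp [abs_of_pos Real.pi_pos]
  unfold Wt
  rw [norm_mul, norm_mul, e1, e2, e3, mul_one]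
  have hc := Real.cos_le_one_sub_mul_cos_sq hφ
  have hf := fact_sqrt d hd
  have hdd : (0 : ℝ) < (d : ℝ) ^ d := by positivity
  have hpi := Real.pi_pos
  have h5 : Real.exp 1 ≤ 2 * Real.pi := by
    have := Real.exp_one_lt_d9
    have := Real.pi_gt_three
    linarith
  have h6 : Real.exp (d * Real.cos φ) ≤ Real.exp d * Real.exp (-(d * φ ^ 2 / 5)) := by
    rw [← Real.exp_add]
    apply Real.exp_le_exp.2
    have h7 : 1 / 5 * φ ^ 2 ≤ 2 / Real.pi ^ 2 * φ ^ 2 := by
      apply mul_le_mul_of_nonneg_right _ (sq_nonneg φ)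
      rw [div_le_div_iff₀ (by norm_num) (by positivity)]
      have := Real.pi_lt_d2
      nlinarith
    nlinarith
  calc (d.factorial : ℝ) / (2 * Real.pi * (d : ℝ) ^ d) * Real.exp (d * Real.cos φ)
      ≤ (d.factorial : ℝ) / (2 * Real.pi * (d : ℝ) ^ d) * (Real.exp d * Real.exp (-(d * φ ^ 2 / 5))) := by
        gcongr
    _ = ((d.factorial : ℝ) * Real.exp d) / (2 * Real.pi * (d : ℝ) ^ d) * Real.exp (-(d * φ ^ 2 / 5)) := by
        ring
    _ ≤ (Real.exp 1 * Real.sqrt d * (d : ℝ) ^ d) / (2 * Real.pi * (d : ℝ) ^ d) *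
        Real.exp (-(d * φ ^ 2 / 5)) := by gcongr
    _ = (Real.exp 1 / (2 * Real.pi)) * (Real.sqrt d * Real.exp (-(d * φ ^ 2 / 5))) := by
        field_simp
    _ ≤ 1 * (Real.sqrt d * Real.exp (-(d * φ ^ 2 / 5))) := by
        apply mul_le_mul_of_nonneg_right _ (by positivity)
        rw [div_le_one (by positivity)]
        exact h5
    _ = _ := one_mul _

end Pool.Agent.Run7.h966.JC
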